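import Mathlib

/-!
# Permutations: functions that are constant on separated arrangements

Pure lemmas for the step theorem of the construction of a weight system.
-/

set_option autoImplicit false

namespace Pool.Agent.SWT93

open Equiv

/-- The adjacent transposition. -/
abbrev sw {n : ℕ} (i : Fin n) : Perm (Fin (n + 1)) := swap i.castSucc i.succ

theorem ainv {n : ℕ} (s : Perm (Fin (n + 1))) (p : Fin (n + 1)) : s (s⁻¹ p) = p :=
  s.apply_symm_apply p

theorem inva {n : ℕ} (s : Perm (Fin (n + 1))) (p : Fin (n + 1)) : s⁻¹ (s p) = p :=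
  s.symm_apply_apply p

/-- The measure: it grows when a descent is removed. -/
def meas {n : ℕ} (t : Perm (Fin (n + 1))) : ℕ := ∑ p, p.val * (t p).val

theorem meas_le {n : ℕ} (t : Perm (Fin (n + 1))) : meas t ≤ (n + 1) * (n * n) := by
  unfold meas
  refine (Finset.sum_le_card_nsmul Finset.univ _ (n * n) fun p _ => ?_).trans ?_
  · exact Nat.mul_le_mul (Nat.lt_succ_iff.1 p.2) (Nat.lt_succ_iff.1 (t p).2)
  · simp

theorem meas_lt {n : ℕ} (t : Perm (Fin (n + 1))) (i : Fin n)
    (h : t i.succ < t i.castSucc) : meas t < meas (t * sw i) := by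
  have hne : i.castSucc ≠ i.succ := (Fin.castSucc_lt_succ).ne
  unfold meas
  have key : ∀ f : Fin (n + 1) → ℕ, ∑ p, f p = f i.castSucc + f i.succ +
      ∑ p ∈ (Finset.univ.erase i.castSucc).erase i.succ, f p := by
    intro f
    rw [← Finset.add_sum_erase _ _ (Finset.mem_univ i.castSucc),
      ← Finset.add_sum_erase (Finset.univ.erase i.castSucc) _
        (Finset.mem_erase.2 ⟨hne.symm, Finset.mem_univ i.succ⟩)]
    ring
  rw [key, key]
  have h3 : ∑ p ∈ (Finset.univ.erase i.castSucc).erase i.succ, p.val * ((t * sw i) p).val =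
      ∑ p ∈ (Finset.univ.erase i.castSucc).erase i.succ, p.val * (t p).val := by
    refine Finset.sum_congr rfl fun p hp => ?_
    rw [Finset.mem_erase, Finset.mem_erase] at hp
    rw [Perm.mul_apply, sw, swap_apply_of_ne_of_ne hp.2.1 hp.1]
  rw [h3, Perm.mul_apply, Perm.mul_apply, sw, swap_apply_left, swap_apply_right]
  have h4 : (t i.succ).val < (t i.castSucc).val := h
  have h5 : (i.succ).val = i.castSucc.val + 1 := by simp
  rw [h5]
  have h6 : i.castSucc.val * (t i.castSucc).val + (i.castSucc.val + 1) * (t i.succ).val <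
      i.castSucc.val * (t i.succ).val + (i.castSucc.val + 1) * (t i.castSucc).val := by
    nlinarith
  omega

/-- A permutation without descent is the identity. -/
theorem eq_one_of_no_descent {n : ℕ} (t : Perm (Fin (n + 1)))
    (h : ∀ i : Fin n, t i.castSucc < t i.succ) : t = 1 := by
  have hm : StrictMono t := Fin.strictMono_iff_lt_succ.2 h
  have h2 : ∀ x, t x = x := by
    intro x
    have h3 := hm.id_le x
    have h4 : StrictMono t.symm := by
      intro a b hab
      by_contra hc
      push Not at hc
      have := hm.monotone hc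
      simp only [apply_symm_apply] at this
      exact absurd hab (not_lt.2 this)
    have h5 := h4.id_le (t x)
    simp only [id, symm_apply_apply] at h3 h5
    exact le_antisymm h5 h3
  ext x
  rw [h2 x]
  rfl

/-- Descent induction: `g` is constant on `P` as soon as every descent with respect to the target
can be removed inside `P` without changing `g`. -/
theorem const_of_descent {n : ℕ} {M : Type} (g : Perm (Fin (n + 1)) → M)
    (P : Perm (Fin (n + 1)) → Prop) (s' : Perm (Fin (n + 1)))
    (h : ∀ s, P s → ∀ i : Fin n, s' (s⁻¹ i.succ) < s' (s⁻¹ i.castSucc) →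
      P (sw i * s) ∧ g (sw i * s) = g s) :
    ∀ s, P s → g s = g s' := by
  have main : ∀ k : ℕ, ∀ s, P s → (n + 1) * (n * n) - meas (s' * s⁻¹) ≤ k → g s = g s' := by
    intro k
    induction k with
    | zero =>
      intro s hs hk
      by_cases hd : ∀ i : Fin n, (s' * s⁻¹) i.castSucc < (s' * s⁻¹) i.succ
      · have := eq_one_of_no_descent _ hd
        rw [mul_inv_eq_one] at this
        rw [this]
      · push Not at hd
        obtain ⟨i, hi⟩ := hd
        have hne : (s' * s⁻¹) i.succ ≠ (s' * s⁻¹) i.castSucc := by
          intro hh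
          exact (Fin.castSucc_lt_succ (i := i)).ne ((s' * s⁻¹).injective hh).symm
        have hlt := lt_of_le_of_ne hi hne
        have h1 := meas_lt _ i hlt
        have h2 := meas_le (s' * s⁻¹ * sw i)
        omega
    | succ k ih =>
      intro s hs hk
      by_cases hd : ∀ i : Fin n, (s' * s⁻¹) i.castSucc < (s' * s⁻¹) i.succ
      · have := eq_one_of_no_descent _ hd
        rw [mul_inv_eq_one] at this
        rw [this]
      · push Not at hd
        obtain ⟨i, hi⟩ := hd
        have hne : (s' * s⁻¹) i.succ ≠ (s' * s⁻¹) i.castSucc := by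
          intro hh
          exact (Fin.castSucc_lt_succ (i := i)).ne ((s' * s⁻¹).injective hh).symm
        have hlt := lt_of_le_of_ne hi hne
        have h1 := meas_lt _ i hlt
        obtain ⟨h3, h4⟩ := h s hs i hlt
        rw [← h4]
        apply ih _ h3
        have h5 : s' * (sw i * s)⁻¹ = s' * s⁻¹ * sw i := by
          rw [mul_inv_rev, sw, swap_inv, mul_assoc]
        rw [h5]
        have h2 := meas_le (s' * s⁻¹ * sw i)
        omega
  intro s hs
  exact main _ s hs le_rfl

/-- The legs of `S` occupy the first slots. -/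
def SFirst {n : ℕ} (S : Finset (Fin (n + 1))) (s : Perm (Fin (n + 1))) : Prop :=
  ∀ j, j ∈ S ↔ (s j).val < S.card

/-- The legs of `S` occupy consecutive slots on the circle. -/
def Sep {n : ℕ} (S : Finset (Fin (n + 1))) (s : Perm (Fin (n + 1))) : Prop :=
  ∃ k : ℕ, SFirst S ((finRotate (n + 1)) ^ k * s)

variable {n : ℕ} {M : Type}

theorem const_sfirst (g : Perm (Fin (n + 1)) → M) (S : Finset (Fin (n + 1)))
    (hfree : ∀ s, SFirst S s → ∀ i : Fin n, (s⁻¹ i.castSucc ∈ S ↔ s⁻¹ i.succ ∈ S) →
      g (sw i * s) = g s) {s s' : Perm (Fin (n + 1))} (hs : SFirst S s) (hs' : SFirst S s') :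
    g s = g s' := by
  refine const_of_descent g (SFirst S) s' ?_ s hs
  intro t ht i hi
  have hside : t⁻¹ i.castSucc ∈ S ↔ t⁻¹ i.succ ∈ S := by
    have h1 := ht (t⁻¹ i.castSucc)
    have h2 := ht (t⁻¹ i.succ)
    have h3 := hs' (t⁻¹ i.castSucc)
    have h4 := hs' (t⁻¹ i.succ)
    rw [ainv] at h1 h2
    have h5 : (s' (t⁻¹ i.succ)).val < (s' (t⁻¹ i.castSucc)).val := hi
    have h6 : (i.succ).val = i.castSucc.val + 1 := by simp
    constructor
    · intro h
      rw [h4]
      have := h3.1 h
      omega
    · intro h
      rw [h1]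
      have := h2.1 h
      omega
  refine ⟨?_, hfree t ht i hside⟩
  intro j
  rw [ht j, Perm.mul_apply, sw]
  have h1 := ht (t⁻¹ i.castSucc)
  have h2 := ht (t⁻¹ i.succ)
  rw [ainv] at h1 h2
  rw [h1, h2] at hside
  by_cases hj1 : t j = i.castSucc
  · rw [hj1, swap_apply_left]
    exact hside
  · by_cases hj2 : t j = i.succ
    · rw [hj2, swap_apply_right]
      exact hside.symm
    · rw [swap_apply_of_ne_of_ne hj1 hj2]

theorem rot_pow (g : Perm (Fin (n + 1)) → M)
    (hrot : ∀ s, g (finRotate (n + 1) * s) = g s) (k : ℕ) (s : Perm (Fin (n + 1))) :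
    g ((finRotate (n + 1)) ^ k * s) = g s := by
  induction k with
  | zero => simp
  | succ k ih => rw [pow_succ', mul_assoc, hrot, ih]

theorem rot_val (k : ℕ) (p : Fin (n + 1)) :
    (((finRotate (n + 1)) ^ k) p).val = (p.val + k) % (n + 1) := by
  induction k with
  | zero => simp [Nat.mod_eq_of_lt p.2]
  | succ k ih =>
    rw [pow_succ', Perm.mul_apply, finRotate_apply, Fin.val_add, ih]
    simp only [Fin.val_one', Nat.add_mod_mod, Nat.mod_add_mod]
    rw [add_assoc]

/-- A listing of the slots in the order of a key. -/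
theorem exists_sorted (key : Fin (n + 1) → ℕ) :
    ∃ s : Perm (Fin (n + 1)), ∀ a b, key a < key b → s a < s b := by
  refine ⟨(Tuple.sort key)⁻¹, ?_⟩
  intro a b hab
  have hm := Tuple.monotone_sort key
  by_contra hc
  push Not at hc
  have h1 := hm hc
  simp only [Function.comp_apply] at h1
  have h2 : (Tuple.sort key) ((Tuple.sort key)⁻¹ a) = a := ainv _ a
  have h3 : (Tuple.sort key) ((Tuple.sort key)⁻¹ b) = b := ainv _ b
  rw [h2, h3] at h1
  omega

theorem sfirst_of_key (S : Finset (Fin (n + 1))) (s : Perm (Fin (n + 1)))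
    (h : ∀ a b, a ∈ S → b ∉ S → s a < s b) : SFirst S s := by
  -- the image of `S` is an initial segment
  have hdown : ∀ a ∈ S, ∀ p : Fin (n + 1), p ≤ s a → s⁻¹ p ∈ S := by
    intro a ha p hp
    by_contra hc
    have := h a (s⁻¹ p) ha hc
    rw [ainv] at this
    exact absurd hp (not_le.2 this)
  have himg : (S.map s.toEmbedding) = Finset.univ.filter fun p : Fin (n + 1) => p.val < S.card := by
    have hsub : (S.map s.toEmbedding) ⊆
        Finset.univ.filter fun p : Fin (n + 1) => p.val < S.card := by
      intro p hp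
      rw [Finset.mem_filter]
      refine ⟨Finset.mem_univ _, ?_⟩
      obtain ⟨a, ha, rfl⟩ := Finset.mem_map.1 hp
      simp only [Equiv.coe_toEmbedding]
      have h1 : (Finset.Iic (s a)) ⊆ S.map s.toEmbedding := by
        intro q hq
        rw [Finset.mem_Iic] at hq
        rw [Finset.mem_map]
        exact ⟨s⁻¹ q, hdown a ha q hq, by simp⟩
      have h2 := Finset.card_le_card h1
      rw [Fin.card_Iic, Finset.card_map] at h2
      omega
    apply Finset.eq_of_subset_of_card_le hsub
    rw [Finset.card_map]
    have h3 : (Finset.univ.filter fun p : Fin (n + 1) => p.val < S.card).card ≤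
        (Finset.range S.card).card := by
      apply Finset.card_le_card_of_injOn (fun p => p.val)
      · intro p hp
        have := (Finset.mem_filter.1 hp).2
        simpa using this
      · intro p _ q _ hpq
        exact Fin.ext hpq
    simpa using h3
  intro j
  have h1 : j ∈ S ↔ s j ∈ S.map s.toEmbedding := by simp
  rw [h1, himg, Finset.mem_filter]
  simp

/-- The main lemma: a rotation-invariant function which is not changed by the exchange of two
adjacent legs of the same side of a separated arrangement is constant on the separated arrangements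
of all the sets of a family. -/
theorem const_sep (g : Perm (Fin (n + 1)) → M) (F : Set (Finset (Fin (n + 1))))
    (hrot : ∀ s, g (finRotate (n + 1) * s) = g s)
    (hfree : ∀ S ∈ F, ∀ s, SFirst S s → ∀ i : Fin n, (s⁻¹ i.castSucc ∈ S ↔ s⁻¹ i.succ ∈ S) →
      g (sw i * s) = g s)
    {S S' : Finset (Fin (n + 1))} (hS : S ∈ F) (hS' : S' ∈ F) {s s' : Perm (Fin (n + 1))}
    (hs : Sep S s) (hs' : Sep S' s') : g s = g s' := by
  classical
  obtain ⟨k, hk⟩ := hs
  obtain ⟨k', hk'⟩ := hs'
  rw [← rot_pow g hrot k s, ← rot_pow g hrot k' s']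
  -- the arrangement which is separated for both sets
  obtain ⟨t, ht⟩ := exists_sorted (n := n) fun j =>
    if j ∈ S then (if j ∈ S' then 1 else 0) else (if j ∈ S' then 2 else 3)
  have h1 : SFirst S t := by
    apply sfirst_of_key
    intro a b ha hb
    apply ht
    simp only [ha, hb, if_true, if_false]
    split_ifs <;> omega
  obtain ⟨k2, h2⟩ : Sep S' t := by
    -- rotate the legs of S \ S' to the end
    set m := (S \ S').card with hm
    have hcard : m ≤ n + 1 := by
      have := Finset.card_le_univ (S \ S')
      simpa [hm] using this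
    refine ⟨n + 1 - m, ?_⟩
    have hfirst : SFirst (S \ S') t := by
      apply sfirst_of_key
      intro a b ha hb
      apply ht
      rw [Finset.mem_sdiff] at ha hb
      simp only [ha.1, ha.2, if_true, if_false]
      by_cases hbS : b ∈ S
      · have hbS' : b ∈ S' := by
          by_contra hc
          exact hb ⟨hbS, hc⟩
        simp [hbS, hbS']
      · simp only [hbS, if_false]
        split_ifs <;> omega
    have hunion : SFirst (S ∪ S') t := by
      apply sfirst_of_key
      intro a b ha hb
      apply ht
      rw [Finset.mem_union] at ha hb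
      push Not at hb
      simp only [hb.1, hb.2, if_false]
      rcases ha with ha | ha <;> simp only [ha, if_true] <;> split_ifs <;> omega
    have hc1 : (S ∪ S').card = m + S'.card := by
      rw [hm]
      rw [← Finset.sdiff_union_self_eq_union, Finset.card_union_of_disjoint]
      exact Finset.sdiff_disjoint
    intro j
    rw [Perm.mul_apply, rot_val]
    have hu := hunion j
    have hf := hfirst j
    have hc2 : (S ∪ S').card ≤ n + 1 := by
      have := Finset.card_le_univ (S ∪ S')
      simpa using this
    rw [hc1] at hu hc2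
    rw [← hm] at hf
    have hlt := (t j).2
    have hj : j ∈ S' ↔ j ∈ S ∪ S' ∧ j ∉ S \ S' := by
      rw [Finset.mem_union, Finset.mem_sdiff]
      tauto
    rw [hj, hu, hf]
    by_cases hc : (t j).val < m
    · have h3 : ((t j).val + (n + 1 - m)) % (n + 1) = (t j).val + (n + 1 - m) :=
        Nat.mod_eq_of_lt (by omega)
      rw [h3]
      constructor
      · rintro ⟨_, h4⟩
        exact absurd hc h4
      · intro h4
        exfalso
        omega
    · have h3 : (t j).val + (n + 1 - m) = ((t j).val - m) + (n + 1) := by omega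
      rw [h3, Nat.add_mod_right, Nat.mod_eq_of_lt (by omega)]
      constructor
      · rintro ⟨h4, _⟩
        omega
      · intro h4
        exact ⟨by omega, hc⟩
  have e1 := const_sfirst g S (hfree S hS) hk h1
  have e2 := const_sfirst g S' (hfree S' hS') hk' h2
  rw [e1, e2, rot_pow g hrot k2 t]

/-- A set which occupies the first slots occupies consecutive slots. -/
theorem SFirst.sep {S : Finset (Fin (n + 1))} {s : Perm (Fin (n + 1))} (h : SFirst S s) :
    Sep S s := ⟨0, by simpa using h⟩

/-- There is a separated arrangement. -/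
theorem exists_sep (S : Finset (Fin (n + 1))) : ∃ s : Perm (Fin (n + 1)), SFirst S s := by
  classical
  obtain ⟨t, ht⟩ := exists_sorted (n := n) fun j => if j ∈ S then 0 else 1
  refine ⟨t, sfirst_of_key S t fun a b ha hb => ht a b ?_⟩
  simp only [ha, hb, if_true, if_false]
  omega

/-- The reversed arrangement is separated. -/
theorem sep_rev {S : Finset (Fin (n + 1))} (h : SFirst S 1) : Sep S (Fin.revPerm) := by
  refine ⟨S.card, fun j => ?_⟩
  have hc : S.card ≤ n + 1 := by
    have := Finset.card_le_univ S
    simpa using this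
  have hj := h j
  rw [Perm.one_apply] at hj
  rw [hj, Perm.mul_apply, rot_val, Fin.revPerm_apply, Fin.val_rev]
  have hlt := j.2
  by_cases h1 : j.val < S.card
  · have h2 : n + 1 - (j.val + 1) + S.card = (S.card - (j.val + 1)) + (n + 1) := by omega
    rw [h2, Nat.add_mod_right, Nat.mod_eq_of_lt (by omega)]
    constructor
    · intro _; omega
    · intro _; exact h1
  · rw [Nat.mod_eq_of_lt (by omega)]
    constructor
    · intro h3; exact absurd h3 h1
    · intro h3; omega

/-- The arrangements of the images of a set. -/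
theorem sep_image {S S' : Finset (Fin (n + 1))} {g h : Perm (Fin (n + 1))}
    (hS : ∀ j, h j ∈ S' ↔ j ∈ S) (hs : Sep S' g) : Sep S (g * h) := by
  obtain ⟨k, hk⟩ := hs
  have hc : S'.card = S.card := by
    rw [← Finset.card_map (s := S) h.toEmbedding]
    congr 1
    ext j
    rw [Finset.mem_map]
    constructor
    · intro hj
      refine ⟨h⁻¹ j, ?_, ?_⟩
      · rw [← hS, ainv]
        exact hj
      · exact ainv h j
    · rintro ⟨a, ha, rfl⟩
      exact (hS a).2 ha
  refine ⟨k, fun j => ?_⟩
  rw [← hS, hk, ← mul_assoc, Perm.mul_apply _ h, hc]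

end Pool.Agent.SWT93
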