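import Mathlib
import Pool.Agent.SWT49.Rev
import Pool.Agent.SWT80.Mg
import Pool.Agent.SWT93.PermSep

/-!
# Interfaces of the construction of a functional on based graphs

A functional of level `n` is a family `F : (V : Type) → Gr V n → M`. `Rel F` (isomorphism, AS, IHX)
and `Stu F F'` are defined in `SWT80.Mg`.
-/

set_option autoImplicit false

namespace Pool.Agent.SWT93

open Equiv Pool.Agent.SWT49 Pool.Agent.SWT80

variable {V W M : Type} {n : ℕ} [AddCommGroup M]

/-- A union of components of the graph. -/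
structure Cld (G : Gr V n) (S : Set V) : Prop where
  e : ∀ v ∈ S, G.e v ∈ S
  r : ∀ v ∈ S, G.r v ∈ S

/-- The graph is connected. -/
def GConn (G : Gr V n) : Prop := ∀ S : Set V, Cld G S → S.Nonempty → S = Set.univ

/-- The legs `i`, `j` end at the same vertex, `j` after `i`. -/
def Cherry (G : Gr V n) (i j : Fin n) : Prop := i ≠ j ∧ G.r (G.e (G.leg i)) = G.e (G.leg j)

/-- There is no cherry. -/
def NoCherry (G : Gr V n) : Prop := ∀ i j, ¬ Cherry G i j

/-- The functional vanishes on the products: some union of components, not empty and not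
everything, has the first legs. -/
def Prod (F : (V : Type) → Gr V n → M) : Prop :=
  ∀ (V : Type) [Finite V] (G : Gr V n) (S : Set V) (k : ℕ), Cld G S → S.Nonempty → S ≠ Set.univ →
    (∀ i, G.leg i ∈ S ↔ i.val < k) → F V G = 0

/-- The parity under the reversal of the order of the legs. -/
def Par (F : (V : Type) → Gr V n → M) : Prop :=
  ∀ (V : Type) [Finite V] (G : Gr V n), F V ((Fin.revPerm : Perm (Fin n)) • G) =
    (-1 : ℤ) ^ n • F V G

/-- `I` is the integral of the form `c`. -/
structure IsInt {X : Type} [MulAction (Perm (Fin (n + 1))) X] (c : X → Fin n → M)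
    (I : Perm (Fin (n + 1)) → X → M) : Prop where
  one : ∀ x, I 1 x = 0
  step : ∀ g x i, I g x - I (s i * g) x = c (g • x) i
  mul : ∀ g h x, I (g * h) x = I g (h • x) + I h x

/-- The properties of the differences `c V G i`, the values of the functional of level `n` on the
graph obtained from `G` by joining the legs `i` and `i + 1`. -/
structure Form (c : (V : Type) → Gr V (n + 1) → Fin n → M) : Prop where
  iso : ∀ (V W : Type) [Finite V] (f : V ≃ W) (G : Gr V (n + 1)) (i : Fin n),
    c W (G.map f) i = c V G i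
  as : ∀ (V : Type) [Finite V] (G : Gr V (n + 1)) (x : V), G.r x ≠ x → ∀ i : Fin n,
    c V (G.flip x) i = - c V G i
  ihx : ∀ (V : Type) [Finite V] (I J X : Gr V (n + 1)) (x : V), Gr.Loc I J X x → ∀ i : Fin n,
    c V I i = c V J i - c V X i
  closed : ∀ (V : Type) [Finite V], Closed (c V)
  rot : ∀ (V : Type) [Finite V] (I : Perm (Fin (n + 1)) → Gr V (n + 1) → M), IsInt (c V) I →
    ∀ G, I (finRotate (n + 1)) G = 0
  rev : ∀ (V : Type) [Finite V] (G : Gr V (n + 1)) (i : Fin n),
    c V (w0 n • G) i.rev = (-1 : ℤ) ^ (n + 1) • c V G i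
  sep : ∀ (V : Type) [Finite V] (G : Gr V (n + 1)) (S : Set V) (k : ℕ), Cld G S → S.Nonempty →
    S ≠ Set.univ → (∀ i, G.leg i ∈ S ↔ i.val < k) → ∀ i : Fin n,
    (G.leg i.castSucc ∈ S ↔ G.leg i.succ ∈ S) → c V G i = 0

/-- The functional of level `n + 1` has the differences `c`. -/
def Diff (F : (V : Type) → Gr V (n + 1) → M) (c : (V : Type) → Gr V (n + 1) → Fin n → M) : Prop :=
  ∀ (V : Type) [Finite V] (G : Gr V (n + 1)) (i : Fin n), F V G - F V (s i • G) = c V G i

/-- The values on the connected graphs without cherry. -/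
structure Core (v : (V : Type) → Gr V (n + 1) → M)
    (c : (V : Type) → Gr V (n + 1) → Fin n → M) : Prop where
  iso : ∀ (V W : Type) [Finite V] (f : V ≃ W) (G : Gr V (n + 1)), GConn G → NoCherry G →
    v W (G.map f) = v V G
  as : ∀ (V : Type) [Finite V] (G : Gr V (n + 1)) (x : V), GConn G → NoCherry G → G.r x ≠ x →
    v V (G.flip x) = - v V G
  ihx : ∀ (V : Type) [Finite V] (I J X : Gr V (n + 1)) (x : V), Gr.Loc I J X x → GConn I →
    NoCherry I → NoCherry J → NoCherry X → v V I = v V J - v V X
  diff : ∀ (V : Type) [Finite V] (G : Gr V (n + 1)) (i : Fin n), GConn G → NoCherry G →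
    v V G - v V (s i • G) = c V G i

/-- `2` is invertible on `M`. -/
structure Half (M : Type) [AddCommGroup M] : Prop where
  ex : ∀ v : M, ∃ w, w + w = v
  uniq : ∀ v : M, v + v = 0 → v = 0

end Pool.Agent.SWT93
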