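import Mathlib
import Pool.Agent.Jac70.Basic

/-!
# Legs plugged again into the slots of the circle

The slots of a diagram are the half-edges `D.r (D.r u)`, `u ∈ D.K`. A permutation `σ` of the
half-edges which moves only slots replaces `e` by `σ e σ⁻¹`: the legs are plugged again into the
slots, the circle and the rest of the graph are unchanged.
-/

set_option autoImplicit false

namespace Pool.Agent.SWT93

open Equiv Pool.Agent.Jac70

variable {H : Type} [DecidableEq H]

/-- The half-edge `h` is a slot. -/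
def Slot (D : JD H) (h : H) : Prop := ∃ u ∈ D.K, h = D.r (D.r u)

/-- The permutation moves only slots. -/
def Moves (D : JD H) (σ : Perm H) : Prop := ∀ h, σ h ≠ h → Slot D h

theorem slot_iff {D : JD H} {h : H} : Slot D h ↔ D.r h ∈ D.K := by
  constructor
  · rintro ⟨u, hu, rfl⟩
    rw [D.r3]
    exact hu
  · intro h1
    exact ⟨D.r h, h1, by rw [D.r3]⟩

theorem not_slot_of_mem {D : JD H} {h : H} (hh : h ∈ D.K) : ¬ Slot D h := by
  rw [slot_iff]
  exact D.out_notMem hh

theorem slot_notMem {D : JD H} {h : H} (hh : Slot D h) : h ∉ D.K := fun h1 =>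
  not_slot_of_mem h1 hh

theorem slot_e_notMem {D : JD H} {h : H} (hh : Slot D h) : D.e h ∉ D.K := by
  obtain ⟨u, hu, rfl⟩ := hh
  exact (D.leg u hu).2

theorem not_slot_of_e_mem {D : JD H} {h : H} (hh : D.e h ∈ D.K) : ¬ Slot D h := fun h1 =>
  slot_e_notMem h1 hh

theorem not_slot_r {D : JD H} {h : H} (hh : h ∈ D.K) : ¬ Slot D (D.r h) :=
  not_slot_of_e_mem (D.out h hh)

theorem Moves.fix {D : JD H} {σ : Perm H} (hσ : Moves D σ) {h : H} (hh : ¬ Slot D h) :
    σ h = h := by
  by_contra hc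
  exact hh (hσ h hc)

theorem Moves.inv {D : JD H} {σ : Perm H} (hσ : Moves D σ) : Moves D σ⁻¹ := by
  intro h hh
  apply hσ
  intro hc
  apply hh
  rw [Perm.inv_eq_iff_eq, hc]

theorem Moves.one (D : JD H) : Moves D 1 := fun _ hh => absurd rfl hh

theorem Moves.mul {D : JD H} {σ τ : Perm H} (hσ : Moves D σ) (hτ : Moves D τ) :
    Moves D (σ * τ) := by
  intro h hh
  by_contra hc
  apply hh
  rw [Perm.mul_apply, hτ.fix hc, hσ.fix hc]

theorem Moves.slot {D : JD H} {σ : Perm H} (hσ : Moves D σ) {h : H} : Slot D (σ h) ↔ Slot D h := by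
  constructor
  · intro h1
    by_contra h2
    rw [hσ.fix h2] at h1
    exact h2 h1
  · intro h1
    by_contra h2
    have h3 : σ (σ h) = σ h := hσ.fix h2
    have h4 := σ.injective h3
    rw [h4] at h2
    exact h2 h1

theorem moves_swap {D : JD H} {p q : H} (hp : Slot D p) (hq : Slot D q) : Moves D (swap p q) := by
  intro h hh
  by_cases h1 : h = p
  · rw [h1]; exact hp
  · by_cases h2 : h = q
    · rw [h2]; exact hq
    · exact absurd (swap_apply_of_ne_of_ne h1 h2) hh

theorem walk {D : JD H} (S : Set H) {u : H} (hu : u ∈ D.K) (hs : u ∈ S)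
    (h : ∀ h ∈ D.K, h ∈ S → D.e (D.r h) ∈ S) : ∀ v ∈ D.K, v ∈ S :=
  D.cyc S ⟨u, hu, hs⟩ h

/-- The diagram with the legs plugged again. -/
def plug (D : JD H) (σ : Perm H) (hσ : Moves D σ) : JD H where
  e := σ * D.e * σ⁻¹
  r := D.r
  K := D.K
  e2 h := by simp [D.e2]
  e1 h := by
    intro hh
    have h1 : D.e (σ⁻¹ h) = σ⁻¹ h := by
      apply σ.injective
      simpa using hh
    exact D.e1 _ h1
  r3 := D.r3
  r1 := D.r1
  out h hh := by
    show σ (D.e (σ⁻¹ (D.r h))) ∈ D.K
    rw [hσ.inv.fix (not_slot_r hh), hσ.fix (not_slot_of_mem (D.out h hh))]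
    exact D.out h hh
  ke h hh := by
    show σ (D.e (σ⁻¹ h)) ∉ D.K
    rw [hσ.inv.fix (not_slot_of_mem hh), hσ.fix (not_slot_of_e_mem (by rw [D.e2]; exact hh))]
    exact D.ke h hh
  leg h hh := by
    refine ⟨(D.leg h hh).1, ?_⟩
    show σ (D.e (σ⁻¹ (D.r (D.r h)))) ∉ D.K
    have h1 : Slot D (σ⁻¹ (D.r (D.r h))) := hσ.inv.slot.2 ⟨h, hh, rfl⟩
    have h2 := slot_e_notMem h1
    by_cases h3 : Slot D (D.e (σ⁻¹ (D.r (D.r h))))
    · exact slot_notMem (hσ.slot.2 h3)
    · rw [hσ.fix h3]
      exact h2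
  cyc S h1 h2 := by
    refine D.cyc S h1 fun h hh hs => ?_
    have h3 := h2 h hh hs
    have h4 : (σ * D.e * σ⁻¹) (D.r h) = D.e (D.r h) := by
      show σ (D.e (σ⁻¹ (D.r h))) = D.e (D.r h)
      rw [hσ.inv.fix (not_slot_r hh), hσ.fix (not_slot_of_mem (D.out h hh))]
    rwa [h4] at h3
  conn S h1 h2 h3 := by
    have h2' : ∀ h ∈ S, σ (D.e (σ⁻¹ h)) ∈ S := h2
    by_cases hK : ∃ u ∈ D.K, u ∈ S
    · obtain ⟨u, hu, hus⟩ := hK
      have hall : ∀ v ∈ D.K, v ∈ S := by
        refine walk S hu hus fun h hh hs => ?_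
        have h4 := h2' _ (h3 h hs)
        rwa [hσ.inv.fix (not_slot_r hh), hσ.fix (not_slot_of_mem (D.out h hh))] at h4
      have hslot : ∀ h, Slot D h → h ∈ S := by
        rintro h ⟨v, hv, rfl⟩
        exact h3 _ (h3 _ (hall v hv))
      refine D.conn S h1 (fun h hs => ?_) h3
      by_cases h5 : Slot D (D.e h)
      · exact hslot _ h5
      · by_cases h6 : Slot D h
        · have h7 := h2' _ (hslot _ (hσ.slot.2 h6))
          have h8 : σ⁻¹ (σ h) = h := σ.symm_apply_apply h
          rw [h8, hσ.fix h5] at h7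
          exact h7
        · have h7 := h2' h hs
          rw [hσ.inv.fix h6, hσ.fix h5] at h7
          exact h7
    · exfalso
      push Not at hK
      have hns : ∀ h ∈ S, ¬ Slot D h := by
        intro h hs h4
        rw [slot_iff] at h4
        exact hK _ h4 (h3 h hs)
      have h4 : S = Set.univ := by
        refine D.conn S h1 (fun h hs => ?_) h3
        have h7 := h2' h hs
        rw [hσ.inv.fix (hns h hs)] at h7
        have h8 := hns _ h7
        rw [hσ.slot] at h8
        rwa [hσ.fix h8] at h7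
      obtain ⟨h, hh⟩ := h1
      obtain ⟨u, hu⟩ := D.ne h
      exact hK u hu (by rw [h4]; trivial)
  ne := D.ne

theorem plug_e (D : JD H) (σ : Perm H) (hσ : Moves D σ) (h : H) :
    (plug D σ hσ).e h = σ (D.e (σ⁻¹ h)) := rfl

theorem plug_r (D : JD H) (σ : Perm H) (hσ : Moves D σ) : (plug D σ hσ).r = D.r := rfl

theorem plug_K (D : JD H) (σ : Perm H) (hσ : Moves D σ) : (plug D σ hσ).K = D.K := rfl

theorem plug_slot (D : JD H) (σ : Perm H) (hσ : Moves D σ) {h : H} :
    Slot (plug D σ hσ) h ↔ Slot D h := Iff.rfl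

theorem plug_moves {D : JD H} {σ τ : Perm H} (hσ : Moves D σ) (hτ : Moves D τ) :
    Moves (plug D σ hσ) τ := hτ

theorem plug_one (D : JD H) : plug D 1 (Moves.one D) = D := by
  ext1
  · ext h
    simp [plug]
  · rfl
  · rfl

theorem plug_plug (D : JD H) (σ τ : Perm H) (hσ : Moves D σ) (hτ : Moves D τ) :
    plug (plug D σ hσ) τ (plug_moves hσ hτ) = plug D (τ * σ) (hτ.mul hσ) := by
  ext1
  · show τ * (σ * D.e * σ⁻¹) * τ⁻¹ = τ * σ * D.e * (τ * σ)⁻¹
    rw [mul_inv_rev]
    group
  · rfl
  · rfl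

/-- The next incoming half-arc. -/
def nx (D : JD H) (u : H) : H := D.e (D.r u)

theorem nx_mem {D : JD H} {u : H} (hu : u ∈ D.K) : nx D u ∈ D.K := D.out u hu

theorem nx_inj {D : JD H} {u v : H} (h : nx D u = nx D v) : u = v := D.r_inj (D.e_inj h)

theorem nx_iter_mem {D : JD H} {u : H} (hu : u ∈ D.K) (i : ℕ) : (nx D)^[i] u ∈ D.K := by
  induction i with
  | zero => exact hu
  | succ i ih =>
    rw [Function.iterate_succ_apply']
    exact nx_mem ih

theorem plug_nx {D : JD H} {σ : Perm H} (hσ : Moves D σ) {u : H} (hu : u ∈ D.K) :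
    nx (plug D σ hσ) u = nx D u := by
  show σ (D.e (σ⁻¹ (D.r u))) = D.e (D.r u)
  rw [hσ.inv.fix (not_slot_r hu), hσ.fix (not_slot_of_mem (D.out u hu))]

theorem plug_nx_iter {D : JD H} {σ : Perm H} (hσ : Moves D σ) {u : H} (hu : u ∈ D.K) (i : ℕ) :
    (nx (plug D σ hσ))^[i] u = (nx D)^[i] u := by
  induction i with
  | zero => rfl
  | succ i ih =>
    rw [Function.iterate_succ_apply', Function.iterate_succ_apply', ih,
      plug_nx hσ (nx_iter_mem hu i)]

/-- The circle returns after `K.card` steps, not earlier. -/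
theorem nx_iter_inj {D : JD H} {u : H} (hu : u ∈ D.K) {i j : ℕ} (hi : i < D.K.card)
    (hj : j < D.K.card) (h : (nx D)^[i] u = (nx D)^[j] u) : i = j := by
  -- the orbit of `u`
  have key : ∀ i j : ℕ, i < j → j < D.K.card → (nx D)^[i] u ≠ (nx D)^[j] u := by
    intro i j hij hj h
    have hinj : Function.Injective (nx D) := fun _ _ => nx_inj
    have h1 : (nx D)^[j - i] u = u := by
      have h2 : (nx D)^[i] ((nx D)^[j - i] u) = (nx D)^[i] u := by
        rw [← Function.iterate_add_apply, h]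
        congr 1
        omega
      exact hinj.iterate i h2
    set d := j - i with hd
    have hdpos : 0 < d := by omega
    have hsub : D.K ⊆ (Finset.range d).image fun k => (nx D)^[k] u := by
      have hw := walk (D := D) (fun v => ∃ k < d, (nx D)^[k] u = v) hu ⟨0, hdpos, rfl⟩ (by
        rintro _ _ ⟨k, hk, rfl⟩
        show ∃ k' < d, (nx D)^[k'] u = nx D ((nx D)^[k] u)
        by_cases hk1 : k + 1 < d
        · exact ⟨k + 1, hk1, Function.iterate_succ_apply' _ _ _⟩
        · have h6 : k + 1 = d := by omega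
          refine ⟨0, hdpos, ?_⟩
          have h7 : (nx D)^[k + 1] u = u := by
            rw [h6]
            exact h1
          rw [Function.iterate_succ_apply'] at h7
          exact h7.symm)
      intro v hv
      obtain ⟨k, hk, hkv⟩ := hw v hv
      exact Finset.mem_image.2 ⟨k, Finset.mem_range.2 hk, hkv⟩
    have h3 := Finset.card_le_card hsub
    have h4 := Finset.card_image_le (s := Finset.range d) (f := fun k => (nx D)^[k] u)
    rw [Finset.card_range] at h4
    omega
  rcases lt_trichotomy i j with h1 | h1 | h1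
  · exact absurd h (key i j h1 hj)
  · exact h1
  · exact absurd h.symm (key j i h1 hi)

theorem exists_nx_iter {D : JD H} {u v : H} (hu : u ∈ D.K) (hv : v ∈ D.K) :
    ∃ i < D.K.card, (nx D)^[i] u = v := by
  have h1 : ((Finset.range D.K.card).image fun k => (nx D)^[k] u) = D.K := by
    apply Finset.eq_of_subset_of_card_le
    · intro w hw
      obtain ⟨k, _, rfl⟩ := Finset.mem_image.1 hw
      exact nx_iter_mem hu k
    · rw [Finset.card_image_of_injOn, Finset.card_range]
      intro i hi j hj hij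
      exact nx_iter_inj hu (Finset.mem_range.1 hi) (Finset.mem_range.1 hj) hij
  rw [← h1] at hv
  obtain ⟨k, hk, hkv⟩ := Finset.mem_image.1 hv
  exact ⟨k, Finset.mem_range.1 hk, hkv⟩

theorem nx_iter_card {D : JD H} {u : H} (hu : u ∈ D.K) : (nx D)^[D.K.card] u = u := by
  have hpos : 0 < D.K.card := Finset.card_pos.2 ⟨u, hu⟩
  obtain ⟨i, hi, h⟩ := exists_nx_iter hu (nx_iter_mem hu D.K.card)
  have hinj : Function.Injective (nx D) := fun _ _ => nx_inj
  by_cases h0 : i = 0
  · rw [h0] at h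
    exact h.symm
  · exfalso
    have h1 : (nx D)^[i] u = (nx D)^[i] ((nx D)^[D.K.card - i] u) := by
      rw [h, ← Function.iterate_add_apply]
      congr 1
      omega
    have h2 := hinj.iterate i h1
    have h3 := nx_iter_inj hu (i := 0) (j := D.K.card - i) hpos (by omega) h2
    omega

end Pool.Agent.SWT93
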