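import Mathlib
import Pool.Agent.SWT93.Stmts

/-!
# The integral of a form on based graphs
-/

set_option autoImplicit false

namespace Pool.Agent.SWT93

open Equiv Pool.Agent.SWT49 Pool.Agent.SWT80

variable {M : Type} [AddCommGroup M] {n : ℕ}

/-! ### Halves -/

namespace Half

variable (hM : Half M)

/-- The half of an element. -/
noncomputable def half (v : M) : M := Classical.choose (hM.ex v)

theorem add (v : M) : hM.half v + hM.half v = v := Classical.choose_spec (hM.ex v)

include hM in
theorem inj {v w : M} (h : v + v = w + w) : v = w := by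
  have h1 : v - w + (v - w) = 0 := by
    have h2 : v - w + (v - w) = (v + v) - (w + w) := by abel
    rw [h2, h, sub_self]
  exact sub_eq_zero.1 (hM.uniq _ h1)

theorem eq {v w : M} (h : w + w = v) : hM.half v = w := hM.inj ((hM.add v).trans h.symm)

theorem half_neg (v : M) : hM.half (-v) = - hM.half v := by
  apply hM.eq
  rw [← neg_add, hM.add]

theorem half_sub (v w : M) : hM.half (v - w) = hM.half v - hM.half w := by
  apply hM.eq
  have h1 : hM.half v - hM.half w + (hM.half v - hM.half w) =
      (hM.half v + hM.half v) - (hM.half w + hM.half w) := by abel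
  rw [h1, hM.add, hM.add]

theorem half_zero : hM.half 0 = 0 := hM.eq (add_zero 0)

include hM in
theorem eq_zero_of_neg {v : M} (h : v = - v) : v = 0 := by
  apply hM.uniq
  nth_rewrite 1 [h]
  exact neg_add_cancel v

end Half

/-! ### The integral -/

open Classical in
/-- The integral of a closed form. -/
noncomputable def intg {X : Type} [MulAction (Perm (Fin (n + 1))) X] (c : X → Fin n → M) :
    Perm (Fin (n + 1)) → X → M :=
  if h : Closed c then Classical.choose (exists_integral h) else fun _ _ => 0

theorem intg_isInt {X : Type} [MulAction (Perm (Fin (n + 1))) X] {c : X → Fin n → M}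
    (h : Closed c) : IsInt c (intg c) := by
  have h1 : intg c = Classical.choose (exists_integral h) := dif_pos h
  rw [h1]
  obtain ⟨h2, h3, h4⟩ := Classical.choose_spec (exists_integral h)
  exact ⟨h2, h3, h4⟩

namespace IsInt

variable {X : Type} [MulAction (Perm (Fin (n + 1))) X] {c : X → Fin n → M}
  {I : Perm (Fin (n + 1)) → X → M}

theorem inv (h : IsInt c I) (g : Perm (Fin (n + 1))) (x : X) : I g⁻¹ (g • x) = - I g x :=
  integral_inv h.one h.mul g x

theorem sw (h : IsInt c I) (x : X) (i : Fin n) : I (s i) x = - c x i := by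
  have h1 := h.step 1 x i
  rw [h.one, mul_one, one_smul, zero_sub] at h1
  rw [← h1, neg_neg]

theorem conj (h : IsInt c I) (g t : Perm (Fin (n + 1))) (x : X) :
    I (g * t * g⁻¹) (g • x) = I g (t • x) + I t x - I g x := by
  rw [h.mul, h.mul, inv_smul_smul, h.inv]
  abel

theorem prim (h : IsInt c I) {F : X → M} (hF : ∀ x i, F x - F (s i • x) = c x i)
    (g : Perm (Fin (n + 1))) (x : X) : F (g • x) = F x + I g x :=
  primitive_integral h.one h.step hF g x

theorem diff (h : IsInt c I) {F : X → M} (hF : ∀ g x, F (g • x) = F x + I g x) (x : X)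
    (i : Fin n) : F x - F (s i • x) = c x i := by
  rw [hF, h.sw]
  abel

end IsInt

namespace Form

variable {c : (V : Type) → Gr V (n + 1) → Fin n → M} (hc : Form c)

include hc

theorem isInt (V : Type) [Finite V] : IsInt (c V) (intg (c V)) := intg_isInt (hc.closed V)

theorem int_map {V W : Type} [Finite V] (f : V ≃ W) (G : Gr V (n + 1))
    (g : Perm (Fin (n + 1))) : intg (c W) g (G.map f) = intg (c V) g G := by
  have hW : Finite W := Finite.of_equiv V f
  have h := potential_unique (n := n) (M := M) (G := fun g => intg (c W) g (G.map f))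
    (G' := fun g => intg (c V) g G) (fun g i => by
      rw [(hc.isInt W).step, (hc.isInt V).step, Gr.smul_map, hc.iso])
    (by rw [(hc.isInt W).one, (hc.isInt V).one])
  exact congrFun h g

theorem int_flip {V : Type} [Finite V] (G : Gr V (n + 1)) {x : V} (hx : G.r x ≠ x)
    (g : Perm (Fin (n + 1))) : intg (c V) g (G.flip x) = - intg (c V) g G := by
  have h := potential_unique (n := n) (M := M) (G := fun g => intg (c V) g (G.flip x))
    (G' := fun g => - intg (c V) g G) (fun g i => by
      have h1 := (hc.isInt V).step g G i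
      rw [(hc.isInt V).step, Gr.smul_flip, hc.as V (g • G) x hx, ← h1]
      abel)
    (by rw [(hc.isInt V).one, (hc.isInt V).one, neg_zero])
  exact congrFun h g

theorem int_loc {V : Type} [Finite V] {I J X : Gr V (n + 1)} {x : V} (hx : Gr.Loc I J X x)
    (g : Perm (Fin (n + 1))) : intg (c V) g I = intg (c V) g J - intg (c V) g X := by
  have h := potential_unique (n := n) (M := M) (G := fun g => intg (c V) g I)
    (G' := fun g => intg (c V) g J - intg (c V) g X) (fun g i => by
      have h1 := (hc.isInt V).step g J i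
      have h2 := (hc.isInt V).step g X i
      rw [(hc.isInt V).step, hc.ihx V _ _ _ x (hx.smul g), ← h1, ← h2]
      abel)
    (by rw [(hc.isInt V).one, (hc.isInt V).one, (hc.isInt V).one, sub_zero])
  exact congrFun h g

theorem int_rot {V : Type} [Finite V] (G : Gr V (n + 1)) (g : Perm (Fin (n + 1))) :
    intg (c V) (finRotate (n + 1) * g) G = intg (c V) g G := by
  rw [(hc.isInt V).mul, hc.rot V _ (hc.isInt V), zero_add]

theorem int_rot_pow {V : Type} [Finite V] (G : Gr V (n + 1)) (k : ℕ) (g : Perm (Fin (n + 1))) :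
    intg (c V) (finRotate (n + 1) ^ k * g) G = intg (c V) g G :=
  rot_pow (fun g => intg (c V) g G) (fun g => hc.int_rot G g) k g

end Form

/-! ### Unions of components and legs -/

/-- The sets of the legs of the unions of components which are not empty and not everything. -/
def Fam {V : Type} (G : Gr V (n + 1)) : Set (Finset (Fin (n + 1))) :=
  {L | ∃ S, Cld G S ∧ S.Nonempty ∧ S ≠ Set.univ ∧ ∀ j, j ∈ L ↔ G.leg j ∈ S}

theorem fam_nonempty {V : Type} {G : Gr V (n + 1)} (h : ¬ GConn G) : ∃ L, L ∈ Fam G := by
  classical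
  unfold GConn at h
  push Not at h
  obtain ⟨S, h1, h2, h3⟩ := h
  exact ⟨Finset.univ.filter fun j => G.leg j ∈ S, S, h1, h2, h3, fun j => by simp⟩

theorem Cld.smul {V : Type} {G : Gr V n} {S : Set V} (h : Cld G S) (g : Perm (Fin n)) :
    Cld (g • G) S := ⟨h.e, h.r⟩

theorem fam_smul {V : Type} {G : Gr V (n + 1)} (h : Perm (Fin (n + 1)))
    {L : Finset (Fin (n + 1))} (hL : L ∈ Fam (h • G)) : ∃ L' ∈ Fam G, ∀ j, h j ∈ L ↔ j ∈ L' := by
  classical
  obtain ⟨S, h1, h2, h3, h4⟩ := hL
  refine ⟨Finset.univ.filter fun j => G.leg j ∈ S, ⟨S, ⟨h1.e, h1.r⟩, h2, h3, fun j => by simp⟩, ?_⟩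
  intro j
  rw [h4, Gr.smul_leg, Finset.mem_filter, inva]
  simp

/-- The value is the same for all the separated arrangements. -/
theorem const_fam {V : Type} [Finite V] {c : (V : Type) → Gr V (n + 1) → Fin n → M}
    (hc : Form c) (G : Gr V (n + 1)) {L L' : Finset (Fin (n + 1))} (hL : L ∈ Fam G)
    (hL' : L' ∈ Fam G) {g g' : Perm (Fin (n + 1))} (hg : Sep L g) (hg' : Sep L' g') :
    intg (c V) g G = intg (c V) g' G := by
  refine const_sep (fun g => intg (c V) g G) (Fam G) (fun g => hc.int_rot G g) ?_ hL hL' hg hg'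
  rintro L ⟨S, h1, h2, h3, h4⟩ t ht i hi
  have h5 := (hc.isInt V).step t G i
  have h6 : c V (t • G) i = 0 := by
    refine hc.sep V (t • G) S L.card (h1.smul t) h2 h3 (fun p => ?_) i ?_
    · rw [Gr.smul_leg, ← h4, ht, ainv]
    · rw [Gr.smul_leg, Gr.smul_leg, ← h4, ← h4]
      exact hi
  rw [h6] at h5
  exact (sub_eq_zero.1 h5).symm

end Pool.Agent.SWT93
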