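import Mathlib
import Pool.Agent.SWT93.Int

/-!
# The step to an odd number of legs
-/

set_option autoImplicit false

namespace Pool.Agent.SWT93

open Equiv Pool.Agent.SWT49 Pool.Agent.SWT80

variable {M : Type} [AddCommGroup M] {n : ℕ}

theorem cld_smul_iff {V : Type} {G : Gr V n} {S : Set V} (g : Perm (Fin n)) :
    Cld (g • G) S ↔ Cld G S := ⟨fun h => ⟨h.e, h.r⟩, fun h => ⟨h.e, h.r⟩⟩

/-- A product arrangement. -/
theorem fam_of_prod {V : Type} {G : Gr V (n + 1)} {S : Set V} {k : ℕ} (h1 : Cld G S)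
    (h2 : S.Nonempty) (h3 : S ≠ Set.univ) (h4 : ∀ i, G.leg i ∈ S ↔ i.val < k) :
    ∃ L ∈ Fam G, SFirst L 1 := by
  classical
  refine ⟨Finset.univ.filter fun j => G.leg j ∈ S, ⟨S, h1, h2, h3, fun j => by simp⟩, ?_⟩
  intro j
  rw [Finset.mem_filter, h4, Perm.one_apply]
  have hcard : (Finset.univ.filter fun j : Fin (n + 1) => G.leg j ∈ S).card = min k (n + 1) := by
    have h5 : (Finset.univ.filter fun j : Fin (n + 1) => G.leg j ∈ S) =
        Finset.univ.filter fun j : Fin (n + 1) => j.val < k := by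
      ext j
      rw [Finset.mem_filter, Finset.mem_filter, h4]
    rw [h5]
    have h6 : (Finset.univ.filter fun j : Fin (n + 1) => j.val < k).map Fin.valEmbedding =
        Finset.range (min k (n + 1)) := by
      ext m
      rw [Finset.mem_map, Finset.mem_range, lt_min_iff]
      constructor
      · rintro ⟨j, hj, rfl⟩
        exact ⟨(Finset.mem_filter.1 hj).2, j.2⟩
      · rintro ⟨h7, h8⟩
        exact ⟨⟨m, h8⟩, Finset.mem_filter.2 ⟨Finset.mem_univ _, h7⟩, rfl⟩
    rw [← Finset.card_map Fin.valEmbedding, h6, Finset.card_range]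
  rw [hcard]
  have h9 := j.2
  constructor
  · rintro ⟨_, h10⟩
    exact lt_min h10 h9
  · intro h10
    exact ⟨Finset.mem_univ _, (lt_min_iff.1 h10).1⟩

/-- **The step to an odd number of legs.** -/
theorem odd_step (hM : Half M) {c : (V : Type) → Gr V (n + 1) → Fin n → M} (hc : Form c)
    (hn : Odd (n + 1)) :
    ∃ F : (V : Type) → Gr V (n + 1) → M, Rel F ∧ Prod F ∧ Par F ∧ Diff F c := by
  have hodd : (-1 : ℤ) ^ (n + 1) = -1 := hn.neg_one_pow
  let F : (V : Type) → Gr V (n + 1) → M := fun V G => - hM.half (intg (c V) (w0 n) G)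
  have hF : ∀ (V : Type) [Finite V], (∀ (G : Gr V (n + 1)) (i : Fin n),
      F V G - F V (s i • G) = c V G i) ∧ ∀ G : Gr V (n + 1), F V (w0 n • G) = - F V G := by
    intro V _
    obtain ⟨F', ⟨h1, h2⟩, _⟩ := exists_odd_primitive hM.ex hM.uniq (hc.closed V) (fun x i => by
      rw [hc.rev V x i, hodd, neg_one_zsmul])
    have h3 : F V = F' := by
      funext G
      have h4 := (hc.isInt V).prim h1 (w0 n) G
      rw [h2] at h4
      show - hM.half (intg (c V) (w0 n) G) = F' G
      rw [← hM.half_neg]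
      apply hM.eq
      have h5 : intg (c V) (w0 n) G = - F' G - F' G := by
        rw [h4]
        abel
      rw [h5]
      abel
    rw [h3]
    exact ⟨h1, h2⟩
  refine ⟨F, ⟨?_, ?_, ?_⟩, ?_, ?_, ?_⟩
  · intro V W _ f G
    show - hM.half (intg (c W) (w0 n) (G.map f)) = - hM.half (intg (c V) (w0 n) G)
    rw [hc.int_map]
  · intro V _ G x hx
    show - hM.half (intg (c V) (w0 n) (G.flip x)) = - - hM.half (intg (c V) (w0 n) G)
    rw [hc.int_flip G hx, hM.half_neg]
  · intro V _ I J X x hx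
    show - hM.half (intg (c V) (w0 n) I) =
      - hM.half (intg (c V) (w0 n) J) - - hM.half (intg (c V) (w0 n) X)
    rw [hc.int_loc hx, hM.half_sub]
    abel
  · intro V _ G S k h1 h2 h3 h4
    obtain ⟨L, hL, hs⟩ := fam_of_prod h1 h2 h3 h4
    have h5 := const_fam hc G hL hL hs.sep (sep_rev hs)
    rw [(hc.isInt V).one] at h5
    show - hM.half (intg (c V) (w0 n) G) = 0
    have h6 : intg (c V) (w0 n) G = 0 := h5.symm
    rw [h6, hM.half_zero, neg_zero]
  · intro V _ G
    rw [hodd, neg_one_zsmul]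
    exact (hF V).2 G
  · intro V _ G i
    exact (hF V).1 G i

end Pool.Agent.SWT93
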