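import Mathlib
import Pool.Agent.SWT93.Odd

/-!
# The step to an even number of legs
-/

set_option autoImplicit false

namespace Pool.Agent.SWT93

open Equiv Pool.Agent.SWT49 Pool.Agent.SWT80

variable {M : Type} [AddCommGroup M] {n : ℕ}

/-- Invariance under isomorphisms and antisymmetry. -/
structure Inv {n : ℕ} (F : (V : Type) → Gr V n → M) : Prop where
  iso : ∀ (V W : Type) [Finite V] (f : V ≃ W) (G : Gr V n), F W (G.map f) = F V G
  as : ∀ (V : Type) [Finite V] (G : Gr V n) (x : V), G.r x ≠ x → F V (G.flip x) = - F V G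

/-- The exchange of the legs of a cherry changes the sign. -/
def ChA (M : Type) [AddCommGroup M] (n : ℕ) : Prop :=
  ∀ (F : (V : Type) → Gr V n → M), Inv F → ∀ (V : Type) [Finite V] (G : Gr V n) (i j : Fin n),
    Cherry G i j → F V (swap i j • G) = - F V G

/-- The exchange of two suitable legs changes the sign of the defect of IHX. -/
def ChB (M : Type) [AddCommGroup M] (n : ℕ) : Prop :=
  ∀ (F : (V : Type) → Gr V n → M), Inv F → ∀ (V : Type) [Finite V] (I J X : Gr V n) (x : V),
    Gr.Loc I J X x → (∃ i j, Cherry I i j ∨ Cherry J i j ∨ Cherry X i j) →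
    ∃ i j : Fin n, F V (swap i j • I) - F V (swap i j • J) + F V (swap i j • X) =
      - (F V I - F V J + F V X)

/-! ### Connectedness and cherries under the elementary changes -/

section

variable {V W : Type}

theorem gconn_smul {G : Gr V n} (g : Perm (Fin n)) : GConn (g • G) ↔ GConn G := by
  constructor
  · intro h S h1 h2
    exact h S ((cld_smul_iff g).2 h1) h2
  · intro h S h1 h2
    exact h S ((cld_smul_iff g).1 h1) h2

theorem cld_image {G : Gr V n} (f : V ≃ W) {S : Set V} (h : Cld G S) : Cld (G.map f) (f '' S) := by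
  constructor
  · rintro _ ⟨v, hv, rfl⟩
    exact ⟨G.e v, h.e v hv, (Gr.map_e f G v).symm⟩
  · rintro _ ⟨v, hv, rfl⟩
    exact ⟨G.r v, h.r v hv, (Gr.map_r f G v).symm⟩

theorem cld_preimage {G : Gr V n} (f : V ≃ W) {S : Set W} (h : Cld (G.map f) S) :
    Cld G (f ⁻¹' S) := by
  constructor
  · intro v hv
    have := h.e _ hv
    rwa [Gr.map_e] at this
  · intro v hv
    have := h.r _ hv
    rwa [Gr.map_r] at this

theorem gconn_map {G : Gr V n} (f : V ≃ W) : GConn (G.map f) ↔ GConn G := by
  constructor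
  · intro h S h1 h2
    have h3 := h (f '' S) (cld_image f h1) (h2.image f)
    ext v
    constructor
    · intro _; trivial
    · intro _
      have h4 : f v ∈ f '' S := by rw [h3]; trivial
      obtain ⟨w, hw, hwv⟩ := h4
      rwa [f.injective hwv] at hw
  · intro h S h1 h2
    have h3 := h (f ⁻¹' S) (cld_preimage f h1) (by
      obtain ⟨w, hw⟩ := h2
      exact ⟨f.symm w, by simpa using hw⟩)
    ext w
    constructor
    · intro _; trivial
    · intro _
      have h4 : f.symm w ∈ f ⁻¹' S := by rw [h3]; trivial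
      simpa using h4

theorem cherry_map {G : Gr V n} (f : V ≃ W) {i j : Fin n} :
    Cherry (G.map f) i j ↔ Cherry G i j := by
  unfold Cherry
  rw [Gr.map_leg, Gr.map_leg, Gr.map_e, Gr.map_e, Gr.map_r, f.injective.eq_iff]

theorem cld_flip {G : Gr V n} {x : V} {S : Set V} : Cld (G.flip x) S ↔ Cld G S := by
  constructor
  · intro h
    refine ⟨h.e, fun v hv => ?_⟩
    have h1 := h.r v hv
    rw [Gr.flip_r] at h1
    by_cases hx : G.vt x v
    · rw [Gr.fr_pos hx] at h1
      have h2 := h.r _ h1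
      rw [Gr.flip_r, Gr.fr_pos (G.vt_r.2 (G.vt_r.2 hx)), G.r3] at h2
      exact h2
    · rwa [Gr.fr_neg hx] at h1
  · intro h
    refine ⟨h.e, fun v hv => ?_⟩
    rw [Gr.flip_r]
    by_cases hx : G.vt x v
    · rw [Gr.fr_pos hx]
      exact h.r _ (h.r _ hv)
    · rw [Gr.fr_neg hx]
      exact h.r _ hv

theorem gconn_flip {G : Gr V n} {x : V} : GConn (G.flip x) ↔ GConn G := by
  constructor
  · intro h S h1 h2
    exact h S (cld_flip.2 h1) h2
  · intro h S h1 h2
    exact h S (cld_flip.1 h1) h2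

theorem cherry_flip {G : Gr V n} {x : V} {i j : Fin n} (h : Cherry (G.flip x) i j) :
    Cherry G i j ∨ Cherry G j i := by
  obtain ⟨h1, h2⟩ := h
  rw [Gr.flip_r, Gr.flip_leg, Gr.flip_e] at h2
  by_cases hx : G.vt x (G.e (G.leg i))
  · right
    rw [Gr.fr_pos hx] at h2
    refine ⟨h1.symm, ?_⟩
    rw [← h2, G.r3]
  · left
    rw [Gr.fr_neg hx] at h2
    exact ⟨h1, h2⟩

theorem nocherry_flip {G : Gr V n} {x : V} (h : NoCherry G) : NoCherry (G.flip x) :=
  fun i j hij => (cherry_flip hij).elim (h i j) (h j i)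

theorem cherry_flip' {G : Gr V n} {x : V} {i j : Fin n} (h : Cherry G i j) :
    Cherry (G.flip x) i j ∨ Cherry (G.flip x) j i := by
  obtain ⟨h1, h2⟩ := h
  by_cases hx : G.vt x (G.e (G.leg i))
  · right
    refine ⟨h1.symm, ?_⟩
    rw [Gr.flip_r, Gr.flip_leg, Gr.flip_e, ← h2, Gr.fr_pos (G.vt_r.2 hx), G.r3]
  · left
    refine ⟨h1, ?_⟩
    rw [Gr.flip_r, Gr.flip_leg, Gr.flip_e, Gr.fr_neg hx]
    exact h2

theorem cherry_smul {G : Gr V n} (g : Perm (Fin n)) {i j : Fin n} :
    Cherry (g • G) (g i) (g j) ↔ Cherry G i j := by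
  unfold Cherry
  rw [Gr.smul_leg, Gr.smul_leg, Gr.smul_e, Gr.smul_r]
  have h1 : ∀ k, g⁻¹ (g k) = k := fun k => g.symm_apply_apply k
  rw [h1, h1, g.injective.ne_iff]

theorem nocherry_smul {G : Gr V n} (g : Perm (Fin n)) : NoCherry (g • G) ↔ NoCherry G := by
  constructor
  · intro h i j hij
    exact h _ _ ((cherry_smul g).2 hij)
  · intro h i j hij
    have h1 : ∀ k, g (g⁻¹ k) = k := fun k => g.apply_symm_apply k
    rw [← h1 i, ← h1 j, cherry_smul] at hij
    exact h _ _ hij

/-- The unions of components are the same for the three diagrams of IHX. -/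
theorem cld_loc {I J X : Gr V n} {x : V} (h : Gr.Loc I J X x) {S : Set V} :
    (Cld J S ↔ Cld I S) ∧ (Cld X S ↔ Cld I S) := by
  have he : I.e (I.e x) = x := I.e2 x
  have hx3 := I.r3 x
  have hy3 := I.r3 (I.e x)
  have hvt : ∀ v, (¬ I.vt x v ∧ ¬ I.vt (I.e x) v) ∨ v = x ∨ v = I.r x ∨ v = I.r (I.r x) ∨
      v = I.e x ∨ v = I.r (I.e x) ∨ v = I.r (I.r (I.e x)) := by
    intro v
    unfold Gr.vt
    tauto
  refine ⟨⟨fun hS => ⟨fun v hv => ?_, fun v hv => ?_⟩, fun hS => ⟨fun v hv => ?_, fun v hv => ?_⟩⟩,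
    ⟨fun hS => ⟨fun v hv => ?_, fun v hv => ?_⟩, fun hS => ⟨fun v hv => ?_, fun v hv => ?_⟩⟩⟩
  · have := hS.e v hv
    rwa [h.eJ] at this
  · have he' : ∀ w ∈ S, I.e w ∈ S := fun w hw => by
      have := hS.e w hw
      rwa [h.eJ] at this
    have r' := hS.r
    rcases hvt v with ⟨h1, h2⟩ | rfl | rfl | rfl | rfl | rfl | rfl
    · have := r' v hv
      rwa [(h.oth v h1 h2).1] at this
    · -- v = x; r x = a : x -> y (e), y -> d -> a
      have h3 := he' _ hv
      have h4 := r' _ h3
      rw [h.j4] at h4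
      have h5 := r' _ h4
      rwa [h.j5] at h5
    · -- v = a; r a = b : a -> y -> x -> b
      have h3 := r' _ hv
      rw [h.j6] at h3
      have h4 := he' _ h3
      rw [he] at h4
      have h5 := r' _ h4
      rwa [h.j1] at h5
    · -- v = b; r b = x : b -> c -> x
      rw [hx3]
      have h3 := r' _ hv
      rw [h.j2] at h3
      have h4 := r' _ h3
      rwa [h.j3] at h4
    · -- v = y; r y = c : y -> x -> b -> c
      have h4 := he' _ hv
      rw [he] at h4
      have h5 := r' _ h4
      rw [h.j1] at h5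
      have h6 := r' _ h5
      rwa [h.j2] at h6
    · -- v = c; d : c -> x -> y -> d
      have h3 := r' _ hv
      rw [h.j3] at h3
      have h4 := he' _ h3
      have h5 := r' _ h4
      rwa [h.j4] at h5
    · -- v = d; y : d -> a -> y
      rw [hy3]
      have h3 := r' _ hv
      rw [h.j5] at h3
      have h4 := r' _ h3
      rwa [h.j6] at h4
  · rw [h.eJ]
    exact hS.e v hv
  · have e' := hS.e
    have r' := hS.r
    rcases hvt v with ⟨h1, h2⟩ | rfl | rfl | rfl | rfl | rfl | rfl
    · rw [(h.oth v h1 h2).1]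
      exact r' v hv
    · rw [h.j1]
      exact r' _ (r' _ hv)
    · rw [h.j6]
      have := r' _ (r' _ hv)
      rw [hx3] at this
      exact e' _ this
    · rw [h.j2]
      have := r' _ hv
      rw [hx3] at this
      exact r' _ (e' _ this)
    · rw [h.j4]
      exact r' _ (r' _ hv)
    · rw [h.j3]
      have := r' _ (r' _ hv)
      rw [hy3] at this
      have h6 := e' _ this
      rwa [he] at h6
    · rw [h.j5]
      have := r' _ hv
      rw [hy3] at this
      have h6 := e' _ this
      rw [he] at h6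
      exact r' _ h6
  · have := hS.e v hv
    rwa [h.eX] at this
  · have he' : ∀ w ∈ S, I.e w ∈ S := fun w hw => by
      have := hS.e w hw
      rwa [h.eX] at this
    have r' := hS.r
    rcases hvt v with ⟨h1, h2⟩ | rfl | rfl | rfl | rfl | rfl | rfl
    · have := r' v hv
      rwa [(h.oth v h1 h2).2] at this
    · have h3 := r' _ hv
      rwa [h.x1] at h3
    · -- a -> c -> x -> y -> d -> b
      have h3 := r' _ hv
      rw [h.x2] at h3
      have h4 := r' _ h3
      rw [h.x3] at h4
      have h5 := he' _ h4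
      have h6 := r' _ h5
      rw [h.x4] at h6
      have h7 := r' _ h6
      rwa [h.x5] at h7
    · -- b -> y -> x
      rw [hx3]
      have h3 := r' _ hv
      rw [h.x6] at h3
      have h4 := he' _ h3
      rwa [he] at h4
    · -- y ; c : y -> x -> a -> c
      have h4 := he' _ hv
      rw [he] at h4
      have h5 := r' _ h4
      rw [h.x1] at h5
      have h6 := r' _ h5
      rwa [h.x2] at h6
    · -- c ; d : c -> x -> y -> d
      have h3 := r' _ hv
      rw [h.x3] at h3
      have h4 := he' _ h3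
      have h5 := r' _ h4
      rwa [h.x4] at h5
    · -- d ; y : d -> b -> y
      rw [hy3]
      have h3 := r' _ hv
      rw [h.x5] at h3
      have h4 := r' _ h3
      rwa [h.x6] at h4
  · rw [h.eX]
    exact hS.e v hv
  · have e' := hS.e
    have r' := hS.r
    rcases hvt v with ⟨h1, h2⟩ | rfl | rfl | rfl | rfl | rfl | rfl
    · rw [(h.oth v h1 h2).2]
      exact r' v hv
    · rw [h.x1]
      exact r' _ hv
    · rw [h.x2]
      have := r' _ (r' _ hv)
      rw [hx3] at this
      exact r' _ (e' _ this)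
    · rw [h.x6]
      have := r' _ hv
      rw [hx3] at this
      exact e' _ this
    · rw [h.x4]
      exact r' _ (r' _ hv)
    · rw [h.x3]
      have := r' _ (r' _ hv)
      rw [hy3] at this
      have h6 := e' _ this
      rwa [he] at h6
    · rw [h.x5]
      have := r' _ hv
      rw [hy3] at this
      have h6 := e' _ this
      rw [he] at h6
      exact r' _ (r' _ h6)

theorem gconn_loc {I J X : Gr V n} {x : V} (h : Gr.Loc I J X x) :
    (GConn J ↔ GConn I) ∧ (GConn X ↔ GConn I) := by
  refine ⟨⟨fun h1 S h2 h3 => h1 S ((cld_loc h).1.2 h2) h3,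
    fun h1 S h2 h3 => h1 S ((cld_loc h).1.1 h2) h3⟩,
    ⟨fun h1 S h2 h3 => h1 S ((cld_loc h).2.2 h2) h3,
    fun h1 S h2 h3 => h1 S ((cld_loc h).2.1 h2) h3⟩⟩

end

end Pool.Agent.SWT93
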