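import Mathlib
import Pool.Agent.SWT93.Even

/-!
# The step to an even number of legs
-/

set_option autoImplicit false

namespace Pool.Agent.SWT93

open Equiv Pool.Agent.SWT49 Pool.Agent.SWT80

variable {M : Type} [AddCommGroup M] {n : ℕ}

/-- A vertex with three legs is a component. -/
theorem no_tripod {V : Type} {G : Gr V n} (hG : GConn G) (h4 : 4 ≤ n) {i j k : Fin n}
    (h1 : Cherry G i j) (h2 : Cherry G j k) (h3 : i ≠ k) : False := by
  have h12 : i ≠ j := h1.1
  have h23 : j ≠ k := h2.1
  have e1 := h1.2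
  have e2 := h2.2
  have e3 : G.r (G.e (G.leg k)) = G.e (G.leg i) := by
    rw [← e2, ← e1, G.r3]
  -- another leg
  obtain ⟨m, hm⟩ : ∃ m : Fin n, m ∉ ({i, j, k} : Finset (Fin n)) := by
    by_contra hc
    push Not at hc
    have h5 : (Finset.univ : Finset (Fin n)) ⊆ {i, j, k} := fun m _ => hc m
    have h6 := Finset.card_le_card h5
    have h7 : ({i, j, k} : Finset (Fin n)).card ≤ 3 := Finset.card_le_three
    rw [Finset.card_univ, Fintype.card_fin] at h6
    omega
  simp only [Finset.mem_insert, Finset.mem_singleton, not_or] at hm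
  have hS := hG {v | v = G.leg i ∨ v = G.leg j ∨ v = G.leg k ∨ v = G.e (G.leg i) ∨
    v = G.e (G.leg j) ∨ v = G.e (G.leg k)} ⟨?_, ?_⟩ ⟨G.leg i, Or.inl rfl⟩
  · have h8 : G.leg m ∈ {v | v = G.leg i ∨ v = G.leg j ∨ v = G.leg k ∨ v = G.e (G.leg i) ∨
      v = G.e (G.leg j) ∨ v = G.e (G.leg k)} := by
      rw [hS]
      trivial
    have hr := G.r_leg m
    rcases h8 with h | h | h | h | h | h
    · exact hm.1 (G.inj h)
    · exact hm.2.1 (G.inj h)
    · exact hm.2.2 (G.inj h)
    · rw [h, e1] at hr
      exact h12 (G.inj (G.e_inj hr)).symm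
    · rw [h, e2] at hr
      exact h23 (G.inj (G.e_inj hr)).symm
    · rw [h, e3] at hr
      exact h3 (G.inj (G.e_inj hr))
  · rintro v (rfl | rfl | rfl | rfl | rfl | rfl)
    · right; right; right; left; rfl
    · right; right; right; right; left; rfl
    · right; right; right; right; right; rfl
    · left; exact G.e2 _
    · right; left; exact G.e2 _
    · right; right; left; exact G.e2 _
  · rintro v (rfl | rfl | rfl | rfl | rfl | rfl)
    · left; exact G.r_leg i
    · right; left; exact G.r_leg j
    · right; right; left; exact G.r_leg k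
    · right; right; right; right; left; exact e1
    · right; right; right; right; right; exact e2
    · right; right; right; left; exact e3

variable {c : (V : Type) → Gr V (n + 1) → Fin n → M}

theorem inv_int (hc : Form c) (g : Perm (Fin (n + 1))) :
    Inv fun (V : Type) (G : Gr V (n + 1)) => intg (c V) g G where
  iso _ _ _ f G := hc.int_map f G g
  as _ _ G _ hx := hc.int_flip G hx g

/-- The integral from a graph with a cherry to the graph with the exchanged legs does not depend on
the cherry. -/
theorem cherry_indep (hM : Half M) (hc : Form c) (hA : ChA M (n + 1)) {V : Type} [Finite V]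
    {G : Gr V (n + 1)} (hG : GConn G) (h4 : 4 ≤ n + 1) {i j k l : Fin (n + 1)}
    (h1 : Cherry G i j) (h2 : Cherry G k l) :
    intg (c V) (swap i j) G = intg (c V) (swap k l) G := by
  by_cases hjk : j = k
  · subst hjk
    by_cases hil : i = l
    · subst hil
      rw [swap_comm]
    · exact (no_tripod hG h4 h1 h2 hil).elim
  by_cases hil : i = l
  · subst hil
    exact (no_tripod hG h4 h2 h1 (Ne.symm hjk)).elim
  by_cases hik : i = k
  · subst hik
    have h3 : j = l := G.inj (G.e_inj (h1.2.symm.trans h2.2))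
    rw [h3]
  by_cases hjl : j = l
  · subst hjl
    have h3 : i = k := G.inj (G.e_inj (G.r_inj (h1.2.trans h2.2.symm)))
    exact absurd h3 hik
  have hcomm : swap i j * swap k l = swap k l * swap i j := by
    rw [mul_swap_eq_swap_mul, swap_apply_of_ne_of_ne (Ne.symm hik) (Ne.symm hjk),
      swap_apply_of_ne_of_ne (Ne.symm hil) (Ne.symm hjl)]
  have e1 := (hc.isInt V).mul (swap i j) (swap k l) G
  have e2 := (hc.isInt V).mul (swap k l) (swap i j) G
  have e3 := hA _ (inv_int hc (swap i j)) V G k l h2
  have e4 := hA _ (inv_int hc (swap k l)) V G i j h1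
  rw [hcomm, e2] at e1
  rw [e3, e4] at e1
  apply hM.inj
  have h5 : intg (c V) (swap i j) G + intg (c V) (swap i j) G =
      (-intg (c V) (swap k l) G + intg (c V) (swap i j) G) + intg (c V) (swap i j) G +
        intg (c V) (swap k l) G := by abel
  rw [h5, e1]
  abel

open Classical in
/-- The functional of the even level. -/
noncomputable def evenF (hM : Half M) (c : (V : Type) → Gr V (n + 1) → Fin n → M)
    (v : (V : Type) → Gr V (n + 1) → M) : (V : Type) → Gr V (n + 1) → M := fun V G =>
  if GConn G then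
    if h : ∃ p : Fin (n + 1) × Fin (n + 1), Cherry G p.1 p.2 then
      - hM.half (intg (c V) (swap (Classical.choose h).1 (Classical.choose h).2) G)
    else v V G
  else if h : ∃ g, ∃ L ∈ Fam G, Sep L g then - intg (c V) (Classical.choose h) G else 0

variable {v : (V : Type) → Gr V (n + 1) → M}

theorem evenF_A (hM : Half M) (hc : Form c) {V : Type} [Finite V] {G : Gr V (n + 1)}
    (hG : ¬ GConn G) {L : Finset (Fin (n + 1))} (hL : L ∈ Fam G) {g : Perm (Fin (n + 1))}
    (hg : Sep L g) : evenF hM c v V G = - intg (c V) g G := by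
  unfold evenF
  rw [if_neg hG]
  have h : ∃ g, ∃ L ∈ Fam G, Sep L g := ⟨g, L, hL, hg⟩
  rw [dif_pos h]
  obtain ⟨L', hL', h'⟩ := Classical.choose_spec h
  rw [const_fam hc G hL' hL h' hg]

theorem evenF_B (hM : Half M) (hc : Form c) (hA : ChA M (n + 1)) {V : Type} [Finite V]
    {G : Gr V (n + 1)} (hG : GConn G) (h4 : 4 ≤ n + 1) {i j : Fin (n + 1)} (h1 : Cherry G i j) :
    evenF hM c v V G = - hM.half (intg (c V) (swap i j) G) := by
  unfold evenF
  rw [if_pos hG]
  have h : ∃ p : Fin (n + 1) × Fin (n + 1), Cherry G p.1 p.2 := ⟨(i, j), h1⟩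
  rw [dif_pos h]
  have h2 := Classical.choose_spec h
  rw [cherry_indep hM hc hA hG h4 h2 h1]

theorem evenF_C (hM : Half M) {V : Type} {G : Gr V (n + 1)} (hG : GConn G) (h1 : NoCherry G) :
    evenF hM c v V G = v V G := by
  unfold evenF
  rw [if_pos hG, dif_neg]
  rintro ⟨p, hp⟩
  exact h1 _ _ hp

/-- The functional is a primitive of the form. -/
theorem evenF_smul (hM : Half M) (hc : Form c) (hv : Core v c) (hA : ChA M (n + 1))
    (h4 : 4 ≤ n + 1) {V : Type} [Finite V] (G : Gr V (n + 1)) (h : Perm (Fin (n + 1))) :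
    evenF hM c v V (h • G) = evenF hM c v V G + intg (c V) h G := by
  by_cases hG : GConn G
  · by_cases hch : ∃ i j, Cherry G i j
    · obtain ⟨i, j, hij⟩ := hch
      rw [evenF_B hM hc hA hG h4 hij,
        evenF_B hM hc hA ((gconn_smul h).2 hG) h4 ((cherry_smul h).2 hij)]
      have e1 : swap (h i) (h j) = h * swap i j * h⁻¹ := by
        rw [mul_swap_eq_swap_mul, mul_assoc, mul_inv_cancel, mul_one]
      have e2 := hA _ (inv_int hc h) V G i j hij
      rw [e1, (hc.isInt V).conj, e2]
      have e3 : - intg (c V) h G + intg (c V) (swap i j) G - intg (c V) h G =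
          intg (c V) (swap i j) G - (intg (c V) h G + intg (c V) h G) := by abel
      rw [e3, hM.half_sub, hM.eq (v := intg (c V) h G + intg (c V) h G) rfl]
      abel
    · have hn : NoCherry G := fun i j hij => hch ⟨i, j, hij⟩
      rw [evenF_C hM hG hn, evenF_C hM ((gconn_smul h).2 hG) ((nocherry_smul h).2 hn)]
      apply perm_induction (P := fun g => v V (g • G) = v V G + intg (c V) g G)
      · rw [one_smul, (hc.isInt V).one, add_zero]
      · intro g i hg
        have e1 := hv.diff V (g • G) i ((gconn_smul g).2 hG) ((nocherry_smul g).2 hn)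
        have e2 := (hc.isInt V).step g G i
        rw [← mul_smul] at e1
        have e3 : v V ((s i * g) • G) = v V (g • G) - c V (g • G) i := by
          rw [← e1]
          abel
        rw [e3, hg, ← e2]
        abel
  · obtain ⟨L, hL⟩ := fam_nonempty (G := h • G) (fun h' => hG ((gconn_smul h).1 h'))
    obtain ⟨g, hg⟩ := exists_sep L
    obtain ⟨L', hL', hLL⟩ := fam_smul h hL
    rw [evenF_A hM hc (fun h' => hG ((gconn_smul h).1 h')) hL hg.sep,
      evenF_A hM hc hG hL' (sep_image hLL hg.sep), (hc.isInt V).mul]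
    abel

theorem int_w0 (hM : Half M) (hc : Form c) (hn : Even (n + 1)) {V : Type} [Finite V]
    (G : Gr V (n + 1)) : intg (c V) (w0 n) G = 0 := by
  have heven : (-1 : ℤ) ^ (n + 1) = 1 := hn.neg_one_pow
  have h1 : ∀ (G : Gr V (n + 1)) (i : Fin n), intg (c V) (w0 n) (s i • G) =
      intg (c V) (w0 n) G := by
    intro G i
    have e1 := (hc.isInt V).mul (w0 n) (s i) G
    have e2 := (hc.isInt V).step (w0 n) G i.rev
    rw [hc.rev, heven, one_smul] at e2
    rw [w0_mul_s, (hc.isInt V).sw] at e1
    have e3 : intg (c V) (s i.rev * w0 n) G = intg (c V) (w0 n) G - c V G i := by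
      rw [← e2]
      abel
    rw [e3] at e1
    have e4 : intg (c V) (w0 n) (s i • G) =
        intg (c V) (w0 n) (s i • G) + - c V G i + c V G i := by abel
    rw [e4, ← e1]
    abel
  apply zero_of_odd hM.uniq h1
  intro G
  have e1 := (hc.isInt V).mul (w0 n) (w0 n) G
  rw [w0_mul_w0, (hc.isInt V).one] at e1
  exact eq_neg_of_add_eq_zero_left e1.symm

/-- **The step to an even number of legs.** -/
theorem even_step (hM : Half M) (hc : Form c) (hn : Even (n + 1)) (h4 : 4 ≤ n + 1)
    (hv : Core v c) (hA : ChA M (n + 1)) (hB : ChB M (n + 1)) :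
    ∃ F : (V : Type) → Gr V (n + 1) → M, Rel F ∧ Prod F ∧ Par F ∧ Diff F c := by
  have hsm := fun (V : Type) [Finite V] (G : Gr V (n + 1)) (h : Perm (Fin (n + 1))) =>
    evenF_smul hM hc hv hA h4 G h
  have hiso : ∀ (V W : Type) [Finite V] (f : V ≃ W) (G : Gr V (n + 1)),
      evenF hM c v W (G.map f) = evenF hM c v V G := by
    intro V W _ f G
    have hW : Finite W := Finite.of_equiv V f
    by_cases hG : GConn G
    · by_cases hch : ∃ i j, Cherry G i j
      · obtain ⟨i, j, hij⟩ := hch
        rw [evenF_B hM hc hA hG h4 hij,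
          evenF_B hM hc hA ((gconn_map f).2 hG) h4 ((cherry_map f).2 hij), hc.int_map]
      · have hn : NoCherry G := fun i j hij => hch ⟨i, j, hij⟩
        rw [evenF_C hM hG hn, evenF_C hM ((gconn_map f).2 hG)
          (fun i j hij => hn i j ((cherry_map f).1 hij)), hv.iso V W f G hG hn]
    · obtain ⟨L, S, h1, h2, h3, h5⟩ := fam_nonempty hG
      obtain ⟨g, hg⟩ := exists_sep L
      have hL' : L ∈ Fam (G.map f) := by
        refine ⟨f '' S, cld_image f h1, h2.image f, ?_, fun j => ?_⟩
        · intro h6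
          apply h3
          ext v
          constructor
          · intro _; trivial
          · intro _
            have h7 : f v ∈ f '' S := by rw [h6]; trivial
            obtain ⟨w, hw, hwv⟩ := h7
            rwa [f.injective hwv] at hw
        · rw [h5, Gr.map_leg]
          exact (f.injective.mem_set_image).symm
      rw [evenF_A hM hc hG ⟨S, h1, h2, h3, h5⟩ hg.sep,
        evenF_A hM hc (fun h' => hG ((gconn_map f).1 h')) hL' hg.sep, hc.int_map]
  have has : ∀ (V : Type) [Finite V] (G : Gr V (n + 1)) (x : V), G.r x ≠ x →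
      evenF hM c v V (G.flip x) = - evenF hM c v V G := by
    intro V _ G x hx
    by_cases hG : GConn G
    · by_cases hch : ∃ i j, Cherry G i j
      · obtain ⟨i, j, hij⟩ := hch
        rw [evenF_B hM hc hA hG h4 hij]
        rcases cherry_flip' (x := x) hij with h | h
        · rw [evenF_B hM hc hA (gconn_flip.2 hG) h4 h, hc.int_flip G hx, hM.half_neg]
        · rw [evenF_B hM hc hA (gconn_flip.2 hG) h4 h, swap_comm, hc.int_flip G hx, hM.half_neg]
      · have hn : NoCherry G := fun i j hij => hch ⟨i, j, hij⟩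
        rw [evenF_C hM hG hn, evenF_C hM (gconn_flip.2 hG) (nocherry_flip hn),
          hv.as V G x hG hn hx]
    · obtain ⟨L, S, h1, h2, h3, h5⟩ := fam_nonempty hG
      obtain ⟨g, hg⟩ := exists_sep L
      rw [evenF_A hM hc hG ⟨S, h1, h2, h3, h5⟩ hg.sep,
        evenF_A hM hc (fun h' => hG (gconn_flip.1 h')) ⟨S, cld_flip.2 h1, h2, h3, h5⟩ hg.sep,
        hc.int_flip G hx]
  refine ⟨evenF hM c v, ⟨hiso, has, ?_⟩, ?_, ?_, ?_⟩
  · -- IHX
    intro V _ I J X x hx
    by_cases hG : GConn I
    · by_cases hch : ∃ i j, Cherry I i j ∨ Cherry J i j ∨ Cherry X i j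
      · obtain ⟨i, j, hij⟩ := hB _ ⟨hiso, has⟩ V I J X x hx hch
        rw [hsm V, hsm V, hsm V, hc.int_loc hx] at hij
        have h1 : evenF hM c v V I - evenF hM c v V J + evenF hM c v V X = 0 := by
          apply hM.eq_zero_of_neg
          rw [← hij]
          abel
        have h2 : evenF hM c v V I = (evenF hM c v V I - evenF hM c v V J + evenF hM c v V X) +
            (evenF hM c v V J - evenF hM c v V X) := by abel
        rw [h2, h1, zero_add]
      · have h1 : NoCherry I := fun i j hij => hch ⟨i, j, Or.inl hij⟩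
        have h2 : NoCherry J := fun i j hij => hch ⟨i, j, Or.inr (Or.inl hij)⟩
        have h3 : NoCherry X := fun i j hij => hch ⟨i, j, Or.inr (Or.inr hij)⟩
        rw [evenF_C hM hG h1, evenF_C hM ((gconn_loc hx).1.2 hG) h2,
          evenF_C hM ((gconn_loc hx).2.2 hG) h3, hv.ihx V I J X x hx hG h1 h2 h3]
    · obtain ⟨L, S, h1, h2, h3, h5⟩ := fam_nonempty hG
      obtain ⟨g, hg⟩ := exists_sep L
      rw [evenF_A hM hc hG ⟨S, h1, h2, h3, h5⟩ hg.sep,
        evenF_A hM hc (fun h' => hG ((gconn_loc hx).1.1 h'))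
          ⟨S, (cld_loc hx).1.2 h1, h2, h3, fun j => by rw [hx.lJ]; exact h5 j⟩ hg.sep,
        evenF_A hM hc (fun h' => hG ((gconn_loc hx).2.1 h'))
          ⟨S, (cld_loc hx).2.2 h1, h2, h3, fun j => by rw [hx.lX]; exact h5 j⟩ hg.sep,
        hc.int_loc hx]
      abel
  · -- products
    intro V _ G S k h1 h2 h3 h5
    obtain ⟨L, hL, hs⟩ := fam_of_prod h1 h2 h3 h5
    have hG : ¬ GConn G := fun h => h3 (h S h1 h2)
    rw [evenF_A hM hc hG hL hs.sep, (hc.isInt V).one, neg_zero]
  · -- parity
    intro V _ G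
    rw [hn.neg_one_pow, one_smul]
    have h1 := hsm V G (w0 n)
    rw [int_w0 hM hc hn, add_zero] at h1
    exact h1
  · intro V _ G i
    exact (hc.isInt V).diff (fun g x => hsm V x g) G i

end Pool.Agent.SWT93
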