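import Mathlib
import Pool.Agent.SWT49.Rim
import Pool.Agent.SWT93.EvenStep

/-!
# The values on the graphs without cherry: wheels, and many legs
-/

set_option autoImplicit false

namespace Pool.Agent.SWT93

open Equiv Pool.Agent.SWT49 Pool.Agent.SWT80

variable {M : Type} [AddCommGroup M] {n : ℕ}
  {c : (V : Type) → Gr V (n + 1) → Fin n → M}

/-- More legs than inner vertices: nothing to do. -/
theorem core_zero (N : ℕ) (hs : ∀ (V : Type) [Finite V] (G : Gr V (n + 1)) (i : Fin n),
    Nat.card V + 2 * (n + 1) ≠ N → c V G i = 0) (hN : N < 6 * (n + 1)) (h3 : 3 ≤ n + 1) :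
    Core (fun (V : Type) (_ : Gr V (n + 1)) => (0 : M)) c where
  iso _ _ _ _ _ _ _ := rfl
  as _ _ _ _ _ _ _ := neg_zero.symm
  ihx _ _ _ _ _ _ _ _ _ _ _ := (sub_zero 0).symm
  diff V _ G i hG hn := by
    rw [sub_zero]
    symm
    apply hs
    intro h
    obtain ⟨j, k, hjk⟩ := exists_cherry G hG h3 (by omega)
    exact hn j k hjk

open Classical in
/-- The values on the wheels. -/
noncomputable def wheelV (c : (V : Type) → Gr V (n + 1) → Fin n → M) :
    (V : Type) → Gr V (n + 1) → M := fun V G =>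
  if h : Nat.card V = 4 * (n + 1) ∧ ∃ g : Perm (Fin (n + 1)), Rim (g • G) then
    - intg (c V) (Classical.choose h.2) G else 0

theorem rim_int (hM : Half M) (hc : Form c) (hn : Even (n + 1)) {V : Type} [Finite V]
    {G : Gr V (n + 1)} (hG : GConn G) (h3 : 3 ≤ n + 1) (hno : NoCherry G)
    {g g' : Perm (Fin (n + 1))} (h1 : Rim (g • G)) (h2 : Rim (g' • G)) :
    intg (c V) g' G = intg (c V) g G := by
  have h5 : Rim ((g' * g⁻¹) • (g • G)) := by
    rw [← mul_smul, mul_assoc, inv_mul_cancel, mul_one]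
    exact h2
  obtain ⟨k, hk⟩ := rim_unique ((gconn_smul g).2 hG) h3 ((nocherry_smul g).2 hno) h1 h5
  rcases hk with hk | hk
  · have h6 : g' = finRotate (n + 1) ^ k * g := by
      rw [← hk, mul_assoc, inv_mul_cancel, mul_one]
    rw [h6, hc.int_rot_pow]
  · have h6 : g' = finRotate (n + 1) ^ k * (w0 n * g) := by
      rw [← mul_assoc, ← hk, mul_assoc, inv_mul_cancel, mul_one]
    rw [h6, hc.int_rot_pow, (hc.isInt V).mul, int_w0 hM hc hn, zero_add]

theorem wheelV_eq (hM : Half M) (hc : Form c) (hn : Even (n + 1)) {V : Type} [Finite V]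
    {G : Gr V (n + 1)} (hG : GConn G) (h3 : 3 ≤ n + 1) (hno : NoCherry G)
    (hV : Nat.card V = 4 * (n + 1)) {g : Perm (Fin (n + 1))} (h1 : Rim (g • G)) :
    wheelV c V G = - intg (c V) g G := by
  unfold wheelV
  have h : Nat.card V = 4 * (n + 1) ∧ ∃ g : Perm (Fin (n + 1)), Rim (g • G) := ⟨hV, g, h1⟩
  rw [dif_pos h, rim_int hM hc hn hG h3 hno h1 (Classical.choose_spec h.2)]

theorem wheelV_zero {V : Type} {G : Gr V (n + 1)} (hV : Nat.card V ≠ 4 * (n + 1)) :
    wheelV c V G = 0 := by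
  unfold wheelV
  rw [dif_neg]
  rintro ⟨h, _⟩
  exact hV h

/-- As many legs as inner vertices: the wheels. -/
theorem core_wheel (hM : Half M) (hc : Form c) (hn : Even (n + 1)) (h3 : 3 ≤ n + 1)
    (hs : ∀ (V : Type) [Finite V] (G : Gr V (n + 1)) (i : Fin n),
      Nat.card V + 2 * (n + 1) ≠ 6 * (n + 1) → c V G i = 0) : Core (wheelV c) c where
  iso V W _ f G hG hno := by
    have hW : Finite W := Finite.of_equiv V f
    have hcard : Nat.card W = Nat.card V := (Nat.card_congr f).symm
    by_cases hV : Nat.card V = 4 * (n + 1)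
    · obtain ⟨g, hg⟩ := exists_rim G hG h3 hV hno
      have hg' : Rim (g • G.map f) := by
        rw [Gr.smul_map]
        exact (rim_map f (g • G)).2 hg
      rw [wheelV_eq hM hc hn hG h3 hno hV hg, wheelV_eq hM hc hn ((gconn_map f).2 hG) h3
        (fun i j hij => hno i j ((cherry_map f).1 hij)) (hcard.trans hV) hg', hc.int_map]
    · rw [wheelV_zero hV, wheelV_zero (by rw [hcard]; exact hV)]
  as V _ G x hG hno hx := by
    by_cases hV : Nat.card V = 4 * (n + 1)
    · obtain ⟨g, hg⟩ := exists_rim G hG h3 hV hno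
      have hg' : Rim (g • G.flip x) := by
        rw [Gr.smul_flip]
        exact (rim_flip (g • G) x).2 hg
      rw [wheelV_eq hM hc hn hG h3 hno hV hg, wheelV_eq hM hc hn (gconn_flip.2 hG) h3
        (nocherry_flip hno) hV hg', hc.int_flip G hx]
    · rw [wheelV_zero hV, wheelV_zero hV, neg_zero]
  ihx V _ I J X x hx hG h1 h2 h4 := by
    by_cases hV : Nat.card V = 4 * (n + 1)
    · exact (loc_noCherry hx hG h3 hV ⟨h1, h2, h4⟩).elim
    · rw [wheelV_zero hV, wheelV_zero hV, wheelV_zero hV, sub_zero]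
  diff V _ G i hG hno := by
    by_cases hV : Nat.card V = 4 * (n + 1)
    · obtain ⟨g, hg⟩ := exists_rim (s i • G) ((gconn_smul _).2 hG) h3 hV ((nocherry_smul _).2 hno)
      have hg' : Rim ((g * s i) • G) := by
        rw [mul_smul]
        exact hg
      rw [wheelV_eq hM hc hn hG h3 hno hV hg', wheelV_eq hM hc hn ((gconn_smul _).2 hG) h3
        ((nocherry_smul _).2 hno) hV hg, (hc.isInt V).mul, (hc.isInt V).sw]
      abel
    · rw [wheelV_zero hV, wheelV_zero hV, sub_zero, hs V G i (by omega)]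

end Pool.Agent.SWT93
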