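import Mathlib
import Pool.Agent.SWT36.Cherry
import Pool.Agent.SWT80.FormMg
import Pool.Agent.SWT93.Cores

/-!
# The functionals of all levels from the levels 8 and 10
-/

set_option autoImplicit false

namespace Pool.Agent.SWT93

open Equiv Pool.Agent.SWT49 Pool.Agent.SWT80

variable {M : Type} [AddCommGroup M]

theorem chA (M : Type) [AddCommGroup M] (n : ℕ) : ChA M n :=
  fun _ hF _ _ _ _ _ h => SWT36.cherry hF.iso hF.as h

theorem chB (M : Type) [AddCommGroup M] (n : ℕ) : ChB M n := by
  intro F hF V _ I J X x hx hc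
  have h1 : (∃ i j, Cherry I i j) ∨ (∃ i j, Cherry J i j) ∨ (∃ i j, Cherry X i j) := by
    obtain ⟨i, j, h | h | h⟩ := hc
    · exact Or.inl ⟨i, j, h⟩
    · exact Or.inr (Or.inl ⟨i, j, h⟩)
    · exact Or.inr (Or.inr ⟨i, j, h⟩)
  obtain ⟨i, j, _, h2⟩ := SWT36.loc_cherry hF.iso hF.as hx h1
  exact ⟨i, j, h2⟩

/-- A functional of one level; `N` is the size of the graphs on which it lives. -/
structure Lev (N : ℕ) {n : ℕ} (F : (V : Type) → Gr V n → M) : Prop where
  rel : Rel F
  prod : Prod F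
  par : Par F
  size : ∀ (V : Type) [Finite V] (G : Gr V n), Nat.card V + 2 * n ≠ N → F V G = 0

theorem Lev.dif_size {N n : ℕ} {F : (V : Type) → Gr V n → M} (hF : Lev N F) (V : Type) [Finite V]
    (G : Gr V (n + 1)) (i : Fin n) (h : Nat.card V + 2 * (n + 1) ≠ N) : dif F V G i = 0 := by
  apply hF.size
  intro h1
  apply h
  rw [← h1, Nat.card_sum]
  simp
  ring

/-- Restriction to the graphs of the right size. -/
theorem lev_cut (N : ℕ) {n : ℕ} {c : (V : Type) → Gr V (n + 1) → Fin n → M}
    (hs : ∀ (V : Type) [Finite V] (G : Gr V (n + 1)) (i : Fin n),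
      Nat.card V + 2 * (n + 1) ≠ N → c V G i = 0)
    (h : ∃ F : (V : Type) → Gr V (n + 1) → M, Rel F ∧ Prod F ∧ Par F ∧ Diff F c) :
    ∃ F : (V : Type) → Gr V (n + 1) → M, Lev N F ∧ Diff F c := by
  obtain ⟨F, h1, h2, h3, h4⟩ := h
  let F' : (V : Type) → Gr V (n + 1) → M := fun V G =>
    if Nat.card V + 2 * (n + 1) = N then F V G else 0
  have hp : ∀ (V : Type) (G : Gr V (n + 1)), Nat.card V + 2 * (n + 1) = N → F' V G = F V G :=
    fun V G h => if_pos h
  have hn : ∀ (V : Type) (G : Gr V (n + 1)), Nat.card V + 2 * (n + 1) ≠ N → F' V G = 0 :=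
    fun V G h => if_neg h
  refine ⟨F', ⟨⟨?_, ?_, ?_⟩, ?_, ?_, ?_⟩, ?_⟩
  · intro V W _ f G
    have hcard : Nat.card W = Nat.card V := (Nat.card_congr f).symm
    by_cases hV : Nat.card V + 2 * (n + 1) = N
    · rw [hp V G hV, hp W _ (by rw [hcard]; exact hV), h1.iso]
    · rw [hn V G hV, hn W _ (by rw [hcard]; exact hV)]
  · intro V _ G x hx
    by_cases hV : Nat.card V + 2 * (n + 1) = N
    · rw [hp V _ hV, hp V _ hV, h1.as V G x hx]
    · rw [hn V _ hV, hn V _ hV, neg_zero]
  · intro V _ I J X x hx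
    by_cases hV : Nat.card V + 2 * (n + 1) = N
    · rw [hp V _ hV, hp V _ hV, hp V _ hV, h1.ihx V I J X x hx]
    · rw [hn V _ hV, hn V _ hV, hn V _ hV, sub_zero]
  · intro V _ G S k a1 a2 a3 a4
    by_cases hV : Nat.card V + 2 * (n + 1) = N
    · rw [hp V _ hV, h2 V G S k a1 a2 a3 a4]
    · exact hn V _ hV
  · intro V _ G
    by_cases hV : Nat.card V + 2 * (n + 1) = N
    · rw [hp V _ hV, hp V _ hV, h3 V G]
    · rw [hn V _ hV, hn V _ hV, smul_zero]
  · intro V _ G hV
    exact hn V _ hV
  · intro V _ G i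
    by_cases hV : Nat.card V + 2 * (n + 1) = N
    · rw [hp V _ hV, hp V _ hV, h4 V G i]
    · rw [hn V _ hV, hn V _ hV, sub_zero, hs V G i hV]

section

variable {N m : ℕ} {F : (V : Type) → Gr V (m + 1) → M} {F' : (V : Type) → Gr V m → M}

theorem form_lev (hM : Half M) (hF : Lev N F) (hF' : Lev N F') (hS : Stu F F') : Form (dif F) :=
  form_mg hM hF.rel hF'.rel hS hF.par hF.prod

/-- The step to an odd number of legs. -/
theorem next_odd (hM : Half M) (hF : Lev N F) (hF' : Lev N F') (hS : Stu F F')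
    (hn : Odd (m + 2)) : ∃ F'' : (V : Type) → Gr V (m + 2) → M, Lev N F'' ∧ Stu F'' F :=
  lev_cut N (fun V _ G i h => hF.dif_size V G i h) (odd_step hM (form_lev hM hF hF' hS) hn)

/-- The step to an even number of legs. -/
theorem next_even (hM : Half M) (hF : Lev N F) (hF' : Lev N F') (hS : Stu F F')
    (hn : Even (m + 2)) (h4 : 4 ≤ m + 2) {v : (V : Type) → Gr V (m + 2) → M}
    (hv : Core v (dif F)) : ∃ F'' : (V : Type) → Gr V (m + 2) → M, Lev N F'' ∧ Stu F'' F :=
  lev_cut N (fun V _ G i h => hF.dif_size V G i h)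
    (even_step hM (form_lev hM hF hF' hS) hn h4 hv (chA M _) (chB M _))

/-- The step to at least `N / 6` legs. -/
theorem next_big (hM : Half M) (hF : Lev N F) (hF' : Lev N F') (hS : Stu F F')
    (h4 : 4 ≤ m + 2) (hN : N ≤ 6 * (m + 2)) :
    ∃ F'' : (V : Type) → Gr V (m + 2) → M, Lev N F'' ∧ Stu F'' F := by
  rcases Nat.even_or_odd (m + 2) with hn | hn
  · rcases hN.lt_or_eq with hN | hN
    · exact next_even hM hF hF' hS hn h4
        (core_zero N (fun V _ G i h => hF.dif_size V G i h) hN (by omega))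
    · exact next_even hM hF hF' hS hn h4 (core_wheel hM (form_lev hM hF hF' hS) hn (by omega)
        (fun V _ G i h => hF.dif_size V G i (by rw [hN]; exact h)))
  · exact next_odd hM hF hF' hS hn

/-- The functional does not depend on the base point. -/
theorem rot_lev (hM : Half M) (hF : Lev N F) (hF' : Lev N F') (hS : Stu F F')
    {F'' : (V : Type) → Gr V (m + 2) → M} (hS' : Stu F'' F) (V : Type) [Finite V]
    (G : Gr V (m + 2)) : F'' V (finRotate (m + 2) • G) = F'' V G := by
  have hc := form_lev hM hF hF' hS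
  have h1 := (hc.isInt V).prim (F := F'' V) (fun x i => hS' V x i) (finRotate (m + 2)) G
  rw [h1, hc.rot V _ (hc.isInt V), add_zero]

end

theorem lev_zero (N n : ℕ) : Lev N (fun (V : Type) (_ : Gr V n) => (0 : M)) where
  rel := ⟨fun _ _ _ _ _ => rfl, fun _ _ _ _ _ => neg_zero.symm,
    fun _ _ _ _ _ _ _ => (sub_zero 0).symm⟩
  prod _ _ _ _ _ _ _ _ _ := rfl
  par _ _ _ := (smul_zero _).symm
  size _ _ _ _ := rfl

/-- The input of level 8. -/
structure In8 (N : ℕ) (z : (V : Type) → Gr V 8 → M) : Prop where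
  rel : Rel z
  sym : ∀ (V : Type) [Finite V] (g : Perm (Fin 8)) (G : Gr V 8), z V (g • G) = z V G
  conn : ∀ (V : Type) [Finite V] (G : Gr V 8), ¬ GConn G → z V G = 0
  size : ∀ (V : Type) [Finite V] (G : Gr V 8), Nat.card V + 2 * 8 ≠ N → z V G = 0

/-- The input of level 10. -/
def In10 (N : ℕ) (z : (V : Type) → Gr V 8 → M) : Prop :=
  ∀ F : (V : Type) → Gr V 9 → M, Lev N F → Stu F z →
    ∃ F' : (V : Type) → Gr V 10 → M, Lev N F' ∧ Stu F' F

theorem In8.lev {N : ℕ} {z : (V : Type) → Gr V 8 → M} (h : In8 N z) : Lev N z where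
  rel := h.rel
  prod V _ G _ _ h1 h2 h3 _ := h.conn V G fun hG => h3 (hG _ h1 h2)
  par V _ G := by
    rw [h.sym]
    norm_num
  size := h.size

/-- The functionals up to the level `k`. -/
structure Upto (N : ℕ) (z : (V : Type) → Gr V 8 → M) (k : ℕ)
    (F : (n : ℕ) → (V : Type) → Gr V n → M) : Prop where
  lev : ∀ n ≤ k, Lev N (F n)
  stu : ∀ n < k, Stu (F (n + 1)) (F n)
  eq8 : F 8 = z
  low : ∀ n < 8, ∀ (V : Type) (G : Gr V n), F n V G = 0

theorem upto8 {N : ℕ} {z : (V : Type) → Gr V 8 → M} (h : In8 N z) :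
    ∃ F, Upto N z 8 F := by
  classical
  refine ⟨Function.update (fun n (V : Type) (_ : Gr V n) => (0 : M)) 8 z, ?_, ?_, ?_, ?_⟩
  · intro n hn
    by_cases h8 : n = 8
    · subst h8
      rw [Function.update_self]
      exact h.lev
    · rw [Function.update_of_ne h8]
      exact lev_zero N n
  · intro n hn
    rw [Function.update_of_ne (a := n) (by omega)]
    by_cases h8 : n + 1 = 8
    · obtain rfl : n = 7 := by omega
      rw [Function.update_self]
      intro V _ G i
      rw [h.sym, sub_self]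
    · rw [Function.update_of_ne h8]
      intro V _ G i
      exact sub_self 0
  · rw [Function.update_self]
  · intro n hn V G
    rw [Function.update_of_ne (by omega)]

theorem upto_succ {N m : ℕ} {z : (V : Type) → Gr V 8 → M}
    {F : (n : ℕ) → (V : Type) → Gr V n → M} (hF : Upto N z (m + 1) F) (h7 : 7 ≤ m)
    (h : ∃ F'' : (V : Type) → Gr V (m + 2) → M, Lev N F'' ∧ Stu F'' (F (m + 1))) :
    ∃ F, Upto N z (m + 2) F := by
  classical
  obtain ⟨F'', h1, h2⟩ := h
  refine ⟨Function.update F (m + 2) F'', ?_, ?_, ?_, ?_⟩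
  · intro n hn
    by_cases hm : n = m + 2
    · subst hm
      rw [Function.update_self]
      exact h1
    · rw [Function.update_of_ne hm]
      exact hF.lev n (by omega)
  · intro n hn
    rw [Function.update_of_ne (a := n) (by omega)]
    by_cases hm : n + 1 = m + 2
    · obtain rfl : n = m + 1 := by omega
      rw [Function.update_self]
      exact h2
    · rw [Function.update_of_ne hm]
      exact hF.stu n (by omega)
  · rw [Function.update_of_ne (by omega)]
    exact hF.eq8
  · intro n hn V G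
    rw [Function.update_of_ne (a := n) (by omega)]
    exact hF.low n hn V G

/-- **The functionals of all levels.** -/
theorem exists_upto (hM : Half M) {N : ℕ} {z : (V : Type) → Gr V 8 → M} (h8 : In8 N z)
    (h10 : In10 N z) (hN : N ≤ 72) (k : ℕ) (hk : 8 ≤ k) : ∃ F, Upto N z k F := by
  induction k, hk using Nat.le_induction with
  | base => exact upto8 h8
  | succ k hk ih =>
    obtain ⟨F, hF⟩ := ih
    obtain ⟨m, rfl⟩ : ∃ m, k = m + 1 := ⟨k - 1, by omega⟩
    refine upto_succ hF (by omega) ?_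
    have e1 := hF.lev (m + 1) le_rfl
    have e2 := hF.lev m (by omega)
    have e3 := hF.stu m (by omega)
    by_cases h9 : m = 7
    · subst h9
      exact next_odd hM e1 e2 e3 (by decide)
    by_cases h11 : m = 8
    · subst h11
      have e4 := hF.stu 8 (by omega)
      rw [hF.eq8] at e4
      exact h10 (F 9) e1 e4
    by_cases h12 : m = 9
    · subst h12
      exact next_odd hM e1 e2 e3 (by decide)
    exact next_big hM e1 e2 e3 (by omega) (by omega)

theorem Upto.rot (hM : Half M) {N k : ℕ} {z : (V : Type) → Gr V 8 → M}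
    {F : (n : ℕ) → (V : Type) → Gr V n → M} (hF : Upto N z k F) (n : ℕ) (hn : n < k)
    (V : Type) [Finite V] (G : Gr V (n + 1)) :
    F (n + 1) V (finRotate (n + 1) • G) = F (n + 1) V G := by
  rcases n with _ | m
  · have : finRotate (0 + 1) = 1 := by decide
    rw [this, one_smul]
  · exact rot_lev hM (hF.lev (m + 1) (by omega)) (hF.lev m (by omega)) (hF.stu m (by omega))
      (hF.stu (m + 1) hn) V G

end Pool.Agent.SWT93
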