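import Mathlib
import Pool.Agent.SWT80.Eval
import Pool.Agent.SWT93.Chain

/-!
# The functional on the space of Jacobi diagrams from the inputs of levels 8 and 10
-/

set_option autoImplicit false

namespace Pool.Agent.SWT93

open Equiv Pool.Agent.SWT49
open Pool.Agent.SWT80 hiding Fam card_le
open Pool.Agent.Jac70 (JD A)

variable {M : Type} [AddCommGroup M]

theorem Upto.fam {N k : ℕ} {z : (V : Type) → Gr V 8 → M}
    {F : (n : ℕ) → (V : Type) → Gr V n → M} (hF : Upto N z k F) : SWT80.Fam k F :=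
  ⟨fun n hn => (hF.lev n hn).rel, hF.stu⟩

/-- **The functional on the diagrams of degree 12.** On the diagrams with 8 legs it is `z`, and it
vanishes on the diagrams with less legs. -/
theorem exists_top (hM : Half M) {z : (V : Type) → Gr V 8 → M} (h8 : In8 72 z)
    (h10 : In10 72 z) : ∃ f : A (Fin 72) →+ M,
      (∀ (W : Type) [Finite W] (D : JD (Fin 72)) (u : Fin 72) (G : Gr W 8) (φ : W → Fin 72),
        Enc D u G φ → f D.cl = z W G) ∧
      ∀ D : JD (Fin 72), D.K.card < 8 → f D.cl = 0 := by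
  obtain ⟨F, hF⟩ := exists_upto hM h8 h10 le_rfl 24 (by norm_num)
  have hc : Nat.card (Fin 72) ≤ 3 * 24 := by simp
  obtain ⟨f, hf⟩ := exists_fun hM.uniq hF.fam hc
  refine ⟨f, fun W _ D u G φ h => ?_, fun D hD => ?_⟩
  · rw [hf, h.val_eq hM.uniq hF.fam hc, hF.eq8]
  · rw [hf]
    by_cases hne : D.K.Nonempty
    · obtain ⟨u, hu⟩ := hne
      rw [SWT80.val_eq hM.uniq hF.fam hc D hu rfl]
      exact hF.low _ hD _ _
    · exact dif_neg hne

end Pool.Agent.SWT93
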