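import Mathlib
import Pool.Agent.SWT93.Chain

/-!
# The functional of level 10 from the values on graphs with two opened edges

`H V G h h'` is the value on the graph `G` with the edges of `h`, `h'` opened, and `Pr V G h h'`
says that this graph is connected with one loop.
-/

set_option autoImplicit false

namespace Pool.Agent.SWT93

open Equiv Pool.Agent.SWT49 Pool.Agent.SWT80

variable {M : Type} [AddCommGroup M] {n : ℕ}

/-- The values on graphs with two opened edges. -/
structure Two (K : ℕ) (c : (V : Type) → Gr V (n + 1) → Fin n → M)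
    (Pr : (V : Type) → Gr V (n + 1) → V → V → Prop)
    (H : (V : Type) → Gr V (n + 1) → V → V → M) : Prop where
  pr_iso : ∀ (V W : Type) [Finite V] (φ : V ≃ W) (G : Gr V (n + 1)) (h h' : V),
    Pr V G h h' → Pr W (G.map φ) (φ h) (φ h')
  pr_flip : ∀ (V : Type) [Finite V] (G : Gr V (n + 1)) (x h h' : V), G.r x ≠ x →
    Pr V G h h' → Pr V (G.flip x) h h'
  pr_loc : ∀ (V : Type) [Finite V] (I J X : Gr V (n + 1)) (x h h' : V), Gr.Loc I J X x →
    x ≠ h → x ≠ I.e h → x ≠ h' → x ≠ I.e h' → Pr V I h h' → Pr V J h h' ∧ Pr V X h h'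
  pr_smul : ∀ (V : Type) [Finite V] (g : Perm (Fin (n + 1))) (G : Gr V (n + 1)) (h h' : V),
    Pr V G h h' → Pr V (g • G) h h'
  iso : ∀ (V W : Type) [Finite V] (φ : V ≃ W) (G : Gr V (n + 1)) (h h' : V), Pr V G h h' →
    H W (G.map φ) (φ h) (φ h') = H V G h h'
  as : ∀ (V : Type) [Finite V] (G : Gr V (n + 1)) (x h h' : V), G.r x ≠ x → Pr V G h h' →
    H V (G.flip x) h h' = - H V G h h'
  ihx : ∀ (V : Type) [Finite V] (I J X : Gr V (n + 1)) (x h h' : V), Gr.Loc I J X x →
    x ≠ h → x ≠ I.e h → x ≠ h' → x ≠ I.e h' → Pr V I h h' → H V I h h' = H V J h h' - H V X h h'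
  diff : ∀ (V : Type) [Finite V] (G : Gr V (n + 1)) (i : Fin n) (h h' : V), Pr V G h h' →
    H V G h h' - H V (s i • G) h h' = c V G i
  ex : ∀ (V : Type) [Finite V] (G : Gr V (n + 1)), GConn G → Nat.card V = K →
    ∃ h h', Pr V G h h'
  exi : ∀ (V : Type) [Finite V] (G : Gr V (n + 1)) (x : V), GConn G → Nat.card V = K →
    Gr.Ok G x → ∃ h h', Pr V G h h' ∧ x ≠ h ∧ x ≠ G.e h ∧ x ≠ h' ∧ x ≠ G.e h'
  unq : ∀ (V : Type) [Finite V] (G : Gr V (n + 1)) (h h' k k' : V), GConn G → Nat.card V = K →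
    Pr V G h h' → Pr V G k k' → H V G h h' = H V G k k'

section

variable {K : ℕ} {c : (V : Type) → Gr V (n + 1) → Fin n → M}
  {Pr : (V : Type) → Gr V (n + 1) → V → V → Prop} {H : (V : Type) → Gr V (n + 1) → V → V → M}

/-- The graph is connected and has `K` half-edges. -/
def CK (K : ℕ) {V : Type} (G : Gr V (n + 1)) : Prop := GConn G ∧ Nat.card V = K

open Classical in
/-- The functional: the value for any two opened edges. -/
noncomputable def twoF (K : ℕ) (Pr : (V : Type) → Gr V (n + 1) → V → V → Prop)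
    (H : (V : Type) → Gr V (n + 1) → V → V → M) (V : Type) (G : Gr V (n + 1)) : M :=
  if _h : CK K G then
    if h2 : ∃ p : V × V, Pr V G p.1 p.2 then H V G h2.choose.1 h2.choose.2 else 0
  else 0

theorem twoF_off {V : Type} {G : Gr V (n + 1)} (h : ¬ CK K G) : twoF K Pr H V G = 0 := dif_neg h

variable (hT : Two K c Pr H)

include hT

theorem twoF_eq {V : Type} [Finite V] {G : Gr V (n + 1)} (hG : CK K G) {h h' : V}
    (hp : Pr V G h h') : twoF K Pr H V G = H V G h h' := by
  have h2 : ∃ p : V × V, Pr V G p.1 p.2 := ⟨(h, h'), hp⟩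
  have h3 : twoF K Pr H V G = H V G h2.choose.1 h2.choose.2 := by
    unfold twoF
    rw [dif_pos hG, dif_pos h2]
  rw [h3]
  exact hT.unq V G _ _ _ _ hG.1 hG.2 h2.choose_spec hp

end

section

variable {K : ℕ} {c : (V : Type) → Gr V (n + 1) → Fin n → M}
  {Pr : (V : Type) → Gr V (n + 1) → V → V → Prop} {H : (V : Type) → Gr V (n + 1) → V → V → M}

omit [AddCommGroup M] in
theorem ck_map {V W : Type} (φ : V ≃ W) {G : Gr V (n + 1)} : CK K (G.map φ) ↔ CK K G := by
  unfold CK
  rw [gconn_map, ← Nat.card_congr φ]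

theorem ck_flip {V : Type} {G : Gr V (n + 1)} {x : V} : CK K (G.flip x) ↔ CK K G := by
  unfold CK
  rw [gconn_flip]

theorem ck_smul {V : Type} {G : Gr V (n + 1)} (g : Perm (Fin (n + 1))) :
    CK K (g • G) ↔ CK K G := by
  unfold CK
  rw [gconn_smul]

theorem ck_loc {V : Type} {I J X : Gr V (n + 1)} {x : V} (h : Gr.Loc I J X x) :
    (CK K J ↔ CK K I) ∧ (CK K X ↔ CK K I) := by
  have h1 := gconn_loc h
  unfold CK
  tauto

/-- **The functional from the values on graphs with two opened edges.** -/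
theorem two_rel (hT : Two K c Pr H) : Rel (twoF K Pr H) where
  iso V W _ φ G := by
    have : Finite W := Finite.of_equiv V φ
    by_cases hG : CK K G
    · obtain ⟨h, h', hp⟩ := hT.ex V G hG.1 hG.2
      rw [twoF_eq hT ((ck_map φ).2 hG) (hT.pr_iso V W φ G h h' hp), twoF_eq hT hG hp,
        hT.iso V W φ G h h' hp]
    · rw [twoF_off hG, twoF_off fun h => hG ((ck_map φ).1 h)]
  as V _ G x hx := by
    by_cases hG : CK K G
    · obtain ⟨h, h', hp⟩ := hT.ex V G hG.1 hG.2
      rw [twoF_eq hT (ck_flip.2 hG) (hT.pr_flip V G x h h' hx hp), twoF_eq hT hG hp,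
        hT.as V G x h h' hx hp]
    · rw [twoF_off hG, twoF_off fun h => hG (ck_flip.1 h), neg_zero]
  ihx V _ I J X x hx := by
    obtain ⟨hJ, hX⟩ := ck_loc (K := K) hx
    by_cases hG : CK K I
    · obtain ⟨h, h', hp, a1, a2, a3, a4⟩ := hT.exi V I x hG.1 hG.2 hx.ok
      obtain ⟨pJ, pX⟩ := hT.pr_loc V I J X x h h' hx a1 a2 a3 a4 hp
      rw [twoF_eq hT hG hp, twoF_eq hT (hJ.2 hG) pJ, twoF_eq hT (hX.2 hG) pX,
        hT.ihx V I J X x h h' hx a1 a2 a3 a4 hp]
    · rw [twoF_off hG, twoF_off fun h => hG (hJ.1 h), twoF_off fun h => hG (hX.1 h), sub_zero]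

theorem two_diff (hT : Two K c Pr H) (V : Type) [Finite V] (G : Gr V (n + 1)) (hG : CK K G)
    (i : Fin n) : twoF K Pr H V G - twoF K Pr H V (s i • G) = c V G i := by
  obtain ⟨h, h', hp⟩ := hT.ex V G hG.1 hG.2
  rw [twoF_eq hT hG hp, twoF_eq hT ((ck_smul (s i)).2 hG) (hT.pr_smul V (s i) G h h' hp),
    hT.diff V G i h h' hp]

/-- The values on the connected graphs without cherry. -/
theorem two_core (hT : Two K c Pr H) (hs : ∀ (V : Type) [Finite V] (G : Gr V (n + 1)) (i : Fin n),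
    Nat.card V ≠ K → c V G i = 0) : Core (twoF K Pr H) c where
  iso V W _ f G _ _ := (two_rel hT).iso V W f G
  as V _ G x _ _ hx := (two_rel hT).as V G x hx
  ihx V _ I J X x h _ _ _ _ := (two_rel hT).ihx V I J X x h
  diff V _ G i hG _ := by
    by_cases hK : Nat.card V = K
    · exact two_diff hT V G ⟨hG, hK⟩ i
    · rw [twoF_off fun h => hK h.2, twoF_off fun h => hK h.2, sub_zero, hs V G i hK]

end

/-- **The input of level 10.** -/
theorem in10_of_two (hM : Half M) {z : (V : Type) → Gr V 8 → M} (h8 : In8 72 z)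
    (h : ∀ F : (V : Type) → Gr V 9 → M, Rel F → Form (dif F) →
      ∃ (Pr : (V : Type) → Gr V (9 + 1) → V → V → Prop)
        (H : (V : Type) → Gr V (9 + 1) → V → V → M), Two 52 (dif F) Pr H) : In10 72 z := by
  intro F hF hS
  obtain ⟨Pr, H, hT⟩ := h F hF.rel (form_lev hM hF h8.lev hS)
  refine next_even hM hF h8.lev hS (by decide) (by norm_num) (two_core hT fun V _ G i hV => ?_)
  exact hF.dif_size V G i (by omega)

end Pool.Agent.SWT93
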