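import Mathlib
import Pool.Agent.SWT65.Stmts
import Pool.Agent.SWT67.Opn
import Pool.Agent.SWT93.Lev10

/-!
# The functional on the graphs with three loops
-/

set_option autoImplicit false

namespace Pool.Agent.SWT93

open Equiv Pool.Agent.SWT49 Pool.Agent.SWT80 Pool.Agent.SWT65 Pool.Agent.SWT84

variable {V W M : Type} {n : ℕ} [AddCommGroup M]

omit [AddCommGroup M]

theorem one_map (f : V ≃ W) {G : Gr V n} : One (G.map f) ↔ One G := by
  constructor
  · rintro ⟨h1, h2⟩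
    exact ⟨(gconn_map f).1 h1, by rw [← h2, Nat.card_congr f]⟩
  · rintro ⟨h1, h2⟩
    exact ⟨(gconn_map f).2 h1, by rw [← h2, Nat.card_congr f]⟩

theorem one_flip {G : Gr V n} {x : V} : One (G.flip x) ↔ One G :=
  ⟨fun h => ⟨gconn_flip.1 h.conn, h.card⟩, fun h => ⟨gconn_flip.2 h.conn, h.card⟩⟩

theorem one_smul {G : Gr V n} (g : Perm (Fin n)) : One (g • G) ↔ One G :=
  ⟨fun h => ⟨(gconn_smul g).1 h.conn, h.card⟩, fun h => ⟨(gconn_smul g).2 h.conn, h.card⟩⟩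

theorem one_loc {I J X : Gr V n} {x : V} (h : Gr.Loc I J X x) :
    (One J ↔ One I) ∧ (One X ↔ One I) := by
  have h1 := gconn_loc h
  exact ⟨⟨fun h2 => ⟨h1.1.1 h2.conn, h2.card⟩, fun h2 => ⟨h1.1.2 h2.conn, h2.card⟩⟩,
    ⟨fun h2 => ⟨h1.2.1 h2.conn, h2.card⟩, fun h2 => ⟨h1.2.2 h2.conn, h2.card⟩⟩⟩

theorem opn2_map (f : V ≃ W) (G : Gr V n) (h k : V) :
    (opn2 G h k).map (Gr.exm (Gr.exm f)) = opn2 (G.map f) (f h) (f k) := by
  unfold opn2
  rw [SWT67.opn_map, SWT67.opn_map]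
  rfl

theorem opn2_flip (G : Gr V n) (h k x : V) :
    opn2 (G.flip x) h k = (opn2 G h k).flip (Sum.inl (Sum.inl x)) := by
  unfold opn2
  rw [SWT67.opn_flip, SWT67.opn_flip]

theorem opn2_smul (g : Perm (Fin n)) (G : Gr V n) (h k : V) :
    opn2 (g • G) h k = pq (pq g (1 : Perm (Fin 2))) (1 : Perm (Fin 2)) • opn2 G h k := by
  unfold opn2
  rw [SWT67.opn_smul, SWT67.opn_smul]

theorem opn2_loc {I J X : Gr V n} {x h k : V} (hL : Gr.Loc I J X x) (h1 : x ≠ h)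
    (h2 : x ≠ I.e h) (h3 : x ≠ k) (h4 : x ≠ I.e k) :
    Gr.Loc (opn2 I h k) (opn2 J h k) (opn2 X h k) (Sum.inl (Sum.inl x)) := by
  unfold opn2
  refine SWT67.opn_loc (fun h' => h3 (Sum.inl.inj h')) (fun h' => ?_) (SWT67.opn_loc h1 h2 hL)
  by_cases k1 : k = h
  · subst k1
    rw [I.opn_e_h] at h'
    cases h'
  by_cases k2 : k = I.e h
  · subst k2
    rw [I.opn_e_eh] at h'
    cases h'
  rw [I.opn_e_o h k1 k2] at h'
  exact h4 (Sum.inl.inj h')

variable [AddCommGroup M]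

theorem link_eq {c : (V : Type) → Gr V (n + 1) → Fin n → M}
    {W₂ : (V : Type) → Gr V (n + 1 + 3) → M} {W : (V : Type) → Gr V (n + 1 + 2 + 2) → M}
    (hP : Pair c W₂ W) (hE : Exch W) {V : Type} [Finite V] {G : Gr V (n + 1)} {h k h' k' : V}
    (hl : Link G h k h' k') : W _ (opn2 G h k) = W _ (opn2 G h' k') := by
  induction hl with
  | refl => rfl
  | exch h' k' l S _ h1 h2 h3 ih => rw [ih, hE V G h' k' l S h1 h2 h3]
  | swap h' k' _ h1 ih => rw [ih, hP.sw V G h' k' h1]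
  | e h' k' _ h1 ih => rw [ih, hP.sw₂ V G h' k' h1]

/-- The values on the graphs with two opened edges. -/
theorem two_of_pair (hl : S_link) (n : ℕ) {c : (V : Type) → Gr V (n + 1) → Fin n → M}
    {W₂ : (V : Type) → Gr V (n + 1 + 3) → M} {W : (V : Type) → Gr V (n + 1 + 2 + 2) → M}
    (hP : Pair c W₂ W) (hE : Exch W) :
    Two (4 * (n + 1) + 12) c (fun _ G h k => One (opn2 G h k)) (fun _ G h k => W _ (opn2 G h k))
    where
  pr_iso V W' _ φ G h h' hp := by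
    show One _
    rw [← opn2_map, one_map]
    exact hp
  pr_flip V _ G x h h' _ hp := by
    show One _
    rw [opn2_flip, one_flip]
    exact hp
  pr_loc V _ I J X x h h' hL h1 h2 h3 h4 hp := by
    have h5 := one_loc (opn2_loc hL h1 h2 h3 h4)
    exact ⟨h5.1.2 hp, h5.2.2 hp⟩
  pr_smul V _ g G h h' hp := by
    show One _
    rw [opn2_smul, one_smul]
    exact hp
  iso V W' _ φ G h h' _ := by
    show W _ _ = W _ _
    rw [← opn2_map]
    exact hP.rel.iso _ _ _ _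
  as V _ G x h h' hx _ := by
    show W _ _ = - W _ _
    rw [opn2_flip]
    refine hP.rel.as _ _ _ fun h1 => hx ?_
    exact Sum.inl.inj (Sum.inl.inj h1)
  ihx V _ I J X x h h' hL h1 h2 h3 h4 _ :=
    hP.rel.ihx _ _ _ _ _ (opn2_loc hL h1 h2 h3 h4)
  diff V _ G i h h' hp := hP.diff V G h h' i hp
  ex V _ G hG hV := (hl n V G ⟨hG, hV⟩).2.1
  exi V _ G x hG hV hx := by
    obtain ⟨h, k, h1, h2, h3, h4, h5⟩ := (hl n V G ⟨hG, hV⟩).1 x hx
    exact ⟨h, k, h1, h2.symm, fun h6 => h3 (by rw [h6, G.e2]), h4.symm,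
      fun h6 => h5 (by rw [h6, G.e2])⟩
  unq V _ G h h' k k' hG hV h1 h2 := link_eq hP hE ((hl n V G ⟨hG, hV⟩).2.2 h h' k k' h1 h2)

/-- **M8b.** -/
theorem full (hl : S_link) : S_full M := by
  intro n c W₂ W _ _ hP hE
  have hT := two_of_pair hl n hP hE
  refine ⟨_, two_rel hT, fun V _ G hG => twoF_off fun h => hG ⟨h.1, h.2⟩, fun V _ G i hG => ?_⟩
  exact two_diff hT V G ⟨hG.conn, hG.card⟩ i

/-- **The input of level 10.** -/
theorem in10 (hM : Half M) (sl : S_link)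
    (h : ∀ F : (V : Type) → Gr V 9 → M, Rel F → Form (dif F) →
      ∃ (W₂ : (V : Type) → Gr V (9 + 1 + 3) → M) (W : (V : Type) → Gr V (9 + 1 + 2 + 2) → M),
        Pair (dif F) W₂ W ∧ Exch W) {z : (V : Type) → Gr V 8 → M} (h8 : In8 72 z) :
    In10 72 z := by
  refine in10_of_two hM h8 fun F hF hc => ?_
  obtain ⟨W₂, W, h1, h2⟩ := h F hF hc
  exact ⟨_, _, two_of_pair sl 9 h1 h2⟩

end Pool.Agent.SWT93
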