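import Mathlib
import Pool.Agent.SWT85.Fv
import Pool.Agent.SWT93.Top

/-!
# The functional of degree 12 with values in `ZMod 3`
-/

set_option autoImplicit false

namespace Pool.Agent.SWT93

open Pool.Agent.SWT45
open Pool.Agent.SWT80 hiding Fam card_le
open Pool.Agent.Jac70 (JD A)

theorem half3 : Half (ZMod 3) where
  ex := by decide
  uniq := by decide

/-- **The functional.** It is given by functionals on the based graphs, `z8` for 8 legs and zero
for less legs. -/
theorem exists_functional (h10 : In10 72 z8) :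
    ∃ (F : (n : ℕ) → (V : Type) → Gr V n → ZMod 3) (f : A (Fin 72) →+ ZMod 3),
      SWT85.Gv F f ∧ F 8 = z8 ∧ ∀ n < 8, ∀ (V : Type) (G : Gr V n), F n V G = 0 := by
  obtain ⟨F, hF⟩ := exists_upto half3 in8_z8 h10 le_rfl 24 (by norm_num)
  have hc : Nat.card (Fin 72) ≤ 3 * 24 := by simp
  obtain ⟨f, hf⟩ := exists_fun half3.uniq hF.fam hc
  exact ⟨F, f, SWT85.gv_of_val half3.uniq hF.fam hc hf, hF.eq8, hF.low⟩

end Pool.Agent.SWT93
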