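import Mathlib
import Pool.Agent.SWT36.HId
import Pool.Agent.SWT41.Stm
import Pool.Agent.SWT46.Exch
import Pool.Agent.SWT49.SLink
import Pool.Agent.SWT84.Loop
import Pool.Agent.SWT93.Full
import Pool.Agent.SWT93.Fun

/-!
# The input of level 10
-/

set_option autoImplicit false

namespace Pool.Agent.SWT93

open Equiv Pool.Agent.SWT80 Pool.Agent.SWT65 Pool.Agent.SWT45

/-- The input of level 10 from the slide at the hub (M4) and the two opened edges (M6). -/
theorem in10_of_slide_pair (s4 : S_slide (ZMod 3)) (s6 : S_pair (ZMod 3)) : In10 72 z8 := by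
  have h3 : ∀ m : ZMod 3, m + m + m = 0 := by decide
  have hE := SWT84.ext (ZMod 3) h3
  have hU := SWT84.uniq (ZMod 3)
  have e1 : Even (9 + 1) := by decide
  have e2 : (9 + 1) % 3 = 1 := by decide
  refine in10 half3 SWT49.s_link (fun F hF hc => ?_) in8_z8
  have k4 := s4 9 (by norm_num) e1 e2 F hF hc
  obtain ⟨W₂, h1, h2⟩ := SWT36.m5 h3 hE hU 9 (by norm_num) e1 e2 (dif F) hc k4
    (SWT41.s_hub half3 hE hU 9 (by norm_num) e1 e2 (dif F) hc)
  obtain ⟨W, h4⟩ := s6 9 (by norm_num) e1 e2 (dif F) W₂ hc h1 (k4 W₂ h1) h2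
  exact ⟨W₂, W, h4, SWT46.exch h1 h4⟩

end Pool.Agent.SWT93
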