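import Mathlib
import Pool.Agent.SWT93.Fin
import Pool.Agent.SWT82.M4

/-!
# Level 10 from the pair move alone

The slide move (`SWT82.s_slide`) is plugged into `in10_of_slide_pair`.
-/

namespace Pool.Agent.SWT93

open Pool.Agent.SWT65 Pool.Agent.SWT80 Pool.Agent.SWT45

/-- Level 10 at `Fin 72` from the statement on pairs of hubs over `ZMod 3`. -/
theorem in10_of_pair (s6 : S_pair (ZMod 3)) : In10 72 z8 :=
  in10_of_slide_pair (SWT82.s_slide (by decide)) s6

end Pool.Agent.SWT93
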