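import Mathlib
import Pool.Agent.SWT93.Chain

/-!
# The input of level 10 from a functional of triples of legs
-/

set_option autoImplicit false

namespace Pool.Agent.SWT93

open Equiv Pool.Agent.SWT49 Pool.Agent.SWT80

variable {M : Type} [AddCommGroup M]

/-- A functional of the triples of legs: the legs `0`, `1`, `2` are special, the other seven legs
are symmetric; its differences are the values of `z` on the graphs in which the three legs are
joined by the trees `[[0, 1], 2]` and `[0, [1, 2]]`. -/
structure In3 (N : ℕ) (z : (V : Type) → Gr V 8 → M) (t : (V : Type) → Gr V 10 → M) : Prop where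
  iso : ∀ (V W : Type) [Finite V] (f : V ≃ W) (G : Gr V 10), Nat.card V + 20 = N → GConn G →
    t W (G.map f) = t V G
  as : ∀ (V : Type) [Finite V] (G : Gr V 10) (x : V), Nat.card V + 20 = N → GConn G →
    G.r x ≠ x → t V (G.flip x) = - t V G
  ihx : ∀ (V : Type) [Finite V] (I J X : Gr V 10) (x : V), Nat.card V + 20 = N → GConn I →
    Gr.Loc I J X x → t V I = t V J - t V X
  sym : ∀ (V : Type) [Finite V] (G : Gr V 10) (g : Perm (Fin 10)), Nat.card V + 20 = N →
    GConn G → g 0 = 0 → g 1 = 1 → g 2 = 2 → t V (g • G) = t V G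
  t1 : ∀ (V : Type) [Finite V] (G : Gr V 10), Nat.card V + 20 = N → GConn G →
    (t V G - t V (s (n := 9) 0 • G)) + (t V G - t V (s (n := 9) 0 • G)) =
      z ((V ⊕ Bool) ⊕ Bool) ((G.mg 0).mg 0)
  t2 : ∀ (V : Type) [Finite V] (G : Gr V 10), Nat.card V + 20 = N → GConn G →
    (t V G - t V (s (n := 9) 1 • G)) + (t V G - t V (s (n := 9) 1 • G)) =
      z ((V ⊕ Bool) ⊕ Bool) ((G.mg 1).mg 0)

/-- The level 10 from the triples. -/
def In10_of_In3 (M : Type) [AddCommGroup M] : Prop :=
  Half M → ∀ (N : ℕ) (z : (V : Type) → Gr V 8 → M) (t : (V : Type) → Gr V 10 → M),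
    In8 N z → In3 N z t → In10 N z

end Pool.Agent.SWT93
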